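import Mathlib

/-!
# Supports most of whose indices are simple
-/

set_option autoImplicit false

namespace Pool.Agent.TH671.SK

/-- `H` is a set of triples (a 3-partite hypergraph), `S1`, `S2`, `S3` are sets of indices in the
three directions such that each other index lies in at most one triple of `H` (it is simple; the
indices in `S1`, `S2`, `S3` are called small).  For each two directions at most `(1 - 1 / h) m`
triples have simple indices in both these directions.  The small indices which occur in triples with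
a simple index lie in `C1`, `C2`, `C3` (the centres).  The triples of small indices have at most `w`
projections to the first two coordinates and at most `w` projections to the last two. -/
structure Sprs {ι : Type} [Fintype ι] [DecidableEq ι] (H : Finset (ι × ι × ι))
    (S1 S2 S3 C1 C2 C3 : Finset ι) (h w : ℕ) : Prop where
  s1 : ∀ e ∈ H, ∀ e' ∈ H, e.1 ∉ S1 → e.1 = e'.1 → e = e'
  s2 : ∀ e ∈ H, ∀ e' ∈ H, e.2.1 ∉ S2 → e.2.1 = e'.2.1 → e = e'
  s3 : ∀ e ∈ H, ∀ e' ∈ H, e.2.2 ∉ S3 → e.2.2 = e'.2.2 → e = e'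
  d23 : h * (H.filter fun e => e.2.1 ∉ S2 ∧ e.2.2 ∉ S3).card ≤ (h - 1) * Fintype.card ι
  d13 : h * (H.filter fun e => e.1 ∉ S1 ∧ e.2.2 ∉ S3).card ≤ (h - 1) * Fintype.card ι
  d12 : h * (H.filter fun e => e.1 ∉ S1 ∧ e.2.1 ∉ S2).card ≤ (h - 1) * Fintype.card ι
  c1 : ∀ e ∈ H, e.1 ∈ S1 → (e.2.1 ∉ S2 ∨ e.2.2 ∉ S3) → e.1 ∈ C1
  c2 : ∀ e ∈ H, e.2.1 ∈ S2 → (e.1 ∉ S1 ∨ e.2.2 ∉ S3) → e.2.1 ∈ C2
  c3 : ∀ e ∈ H, e.2.2 ∈ S3 → (e.1 ∉ S1 ∨ e.2.1 ∉ S2) → e.2.2 ∈ C3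
  z12 : ((H.filter fun e => e.1 ∈ S1 ∧ e.2.1 ∈ S2 ∧ e.2.2 ∈ S3).image
    fun e => (e.1, e.2.1)).card ≤ w
  z23 : ((H.filter fun e => e.1 ∈ S1 ∧ e.2.1 ∈ S2 ∧ e.2.2 ∈ S3).image fun e => e.2).card ≤ w

/-- the part of the tensor `F` with indices in `S1`, `S2`, `S3` -/
def smallPart {R ι : Type} [DecidableEq ι] [Zero R] (F : ι → ι → ι → R) (S1 S2 S3 : Finset ι) :
    ι → ι → ι → R :=
  fun x y z => if x ∈ S1 ∧ y ∈ S2 ∧ z ∈ S3 then F x y z else 0

end Pool.Agent.TH671.SK
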