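import Mathlib
import Pool.Agent.TH671.SH.Class

/-!
# Words most of whose letters have a big index in one fixed direction (two star numbers)
-/

set_option autoImplicit false
set_option linter.unusedSectionVars false

open Finset

namespace Pool.Agent.TH671.SK

open Pool.Agent.W329.AR Pool.Agent.TH671.SG Pool.Agent.TH671.SH

variable {K : Type*} [CommRing K]
variable {α β γ : Type*}

/-- Decompositions of five tensors: `0, 1, 2, 3` are the parts with a big first index, `4` is the
sum of the other parts. -/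
structure Cl2 (τ σ : ℕ) (A : Fin 5 → α → β → γ → K) (W : Fin 5 → ℕ) : Prop where
  a0 : FS τ 0 (A 0) (W 0)
  a1 : FS τ 1 (A 0) (W 0)
  b0 : FS τ 0 (A 1) (W 1)
  c1 : FS τ 1 (A 2) (W 2)
  r2 : FS σ 2 (A 4) (W 4)
  tr : ∀ j, j ≠ 4 → ∀ κ, FS (W j) κ (A j) (W j)

theorem good_word2 {τ σ d : ℕ} {A : Fin 5 → α → β → γ → K} {W : Fin 5 → ℕ} (hC : Cl2 τ σ A W)
    (Sm : Finset (Fin 5)) (hlg : ∀ j, j ≠ 3 → j ≠ 4 → j ∉ Sm → τ * d ≤ W j) (hd : 1 ≤ d)
    (N M C e1 e2 E : ℕ)
    (n1 : ∀ g, E * g ≤ N → W 4 ^ g ≤ 4 ^ M * σ ^ g)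
    (n2 : ∀ k, N ≤ 8 * e2 * (k + 1) → 10 ^ (5 * M) * 4 ^ M ≤ C * d ^ k)
    (hE : 2 * e2 ≤ E) (he1 : 4 * e2 ≤ e1) (u : Fin N → Fin 5) (hg : E * cnt {4} u ≤ N)
    (p1 : e1 * cnt Sm u < N) (p2 : N < e2 * cnt {0, 1, 4} u) (p3 : N < e2 * cnt {0, 2, 4} u) :
    Rk (fun (x : Fin N → α) (y : Fin N → β) (z : Fin N → γ) =>
        ∏ t, A (u t) (x t) (y t) (z t))
      ((2 * QQ M + 2 * C) * ∏ t, (if u t = 4 then σ else W (u t))) := by
  classical
  set W0 := univ.filter fun t => u t = 0 with hW0
  obtain ⟨H, hH, cH⟩ := Finset.exists_subset_card_eq (s := W0) (n := W0.card / 2)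
    (Nat.div_le_self _ _)
  have hH0 : ∀ t ∈ H, u t = 0 := fun t ht => (Finset.mem_filter.1 (hH ht)).2
  set κ : Fin N → Fin 3 := fun t => if u t = 0 then (if t ∈ H then 0 else 1) else
    if u t = 1 then 0 else if u t = 2 then 1 else if u t = 3 then 0 else 2 with hκ
  set s : Fin N → ℕ := fun t => if u t = 4 then σ else
    if u t = 3 ∨ u t ∈ Sm then W (u t) else τ with hs
  have hFS : ∀ t, FS (s t) (κ t) (A (u t)) (W (u t)) := by
    intro t
    by_cases h4 : u t = 4
    · simp only [hs, hκ, h4]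
      exact hC.r2
    · by_cases h3 : u t = 3 ∨ u t ∈ Sm
      · have e1 : s t = W (u t) := by simp only [hs]; rw [if_neg h4, if_pos h3]
        rw [e1]
        exact hC.tr _ h4 _
      · have e1 : s t = τ := by simp only [hs]; rw [if_neg h4, if_neg h3]
        rw [e1]
        push Not at h3
        have h3' := h3.1
        simp only [hκ]
        generalize u t = j at h4 h3'
        fin_cases j
        · by_cases ht : t ∈ H
          · simpa [ht] using hC.a0
          · simpa [ht] using hC.a1
        · exact hC.b0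
        · exact hC.c1
        · exact absurd rfl h3'
        · exact absurd rfl h4
  set g := cnt {4} u with hgdef
  set F := ∏ t, (if u t = 4 then σ else W (u t)) with hF
  set R := ∏ t, (if u t ∈ ({4} : Finset (Fin 5)) then 1 else W (u t)) with hR
  have eF : F = R * σ ^ g := prod_four u W σ
  have eW : ∏ t, W (u t) = R * W 4 ^ g := by
    have := prod_four u W (W 4)
    rw [← this]
    refine Finset.prod_congr rfl fun t _ => ?_
    by_cases h : u t = 4 <;> simp [h]
  have hB : ∏ t, W (u t) ≤ 4 ^ M * F := by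
    rw [eF, eW]
    calc R * W 4 ^ g ≤ R * (4 ^ M * σ ^ g) := Nat.mul_le_mul_left _ (n1 g hg)
      _ = _ := by ring
  -- gains
  set P : Fin 3 → Finset (Fin N) := fun c => univ.filter fun t => κ t = c ∧ u t ≠ 3 ∧ u t ∉ Sm
    with hP
  have hgain : ∀ c : Fin 3, c ≠ 2 →
      (∏ t, if κ t = c then s t else W (u t)) * d ^ (P c).card ≤ ∏ t, W (u t) := by
    intro c hc
    refine prod_gain (P c) _ _ d ?_ ?_
    · intro t ht
      obtain ⟨_, h1, h2, h3⟩ := Finset.mem_filter.1 ht
      have h4 : u t ≠ 4 := by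
        intro h4
        apply hc
        rw [← h1]
        simp [hκ, h4]
      rw [if_pos h1]
      have : s t = τ := by
        simp only [hs]
        rw [if_neg h4, if_neg (by tauto)]
      rw [this]
      exact hlg _ h2 h4 h3
    · intro t ht
      by_cases h1 : κ t = c
      · rw [if_pos h1]
        have h4 : u t ≠ 4 := by
          intro h4
          apply hc
          rw [← h1]
          simp [hκ, h4]
        have h3 : u t = 3 ∨ u t ∈ Sm := by
          by_contra h3
          push Not at h3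
          exact ht (Finset.mem_filter.2 ⟨Finset.mem_univ _, h1, h3.1, h3.2⟩)
        simp only [hs]
        rw [if_neg h4, if_pos h3]
      · rw [if_neg h1]
  have hgain' : ∀ c : Fin 3, c ≠ 2 → N ≤ 8 * e2 * ((P c).card + 1) →
      10 ^ (5 * M) * (∏ t, if κ t = c then s t else W (u t)) ≤ C * F := by
    intro c hc hN
    have h1 := hgain c hc
    have h2 := n2 _ hN
    have hdp : 0 < d ^ (P c).card := by positivity
    refine Nat.le_of_mul_le_mul_right ?_ hdp
    calc 10 ^ (5 * M) * (∏ t, if κ t = c then s t else W (u t)) * d ^ (P c).card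
        = 10 ^ (5 * M) * ((∏ t, if κ t = c then s t else W (u t)) * d ^ (P c).card) := by ring
      _ ≤ 10 ^ (5 * M) * (4 ^ M * F) := Nat.mul_le_mul_left _ (h1.trans hB)
      _ = (10 ^ (5 * M) * 4 ^ M) * F := by ring
      _ ≤ (C * d ^ (P c).card) * F := Nat.mul_le_mul_right _ h2
      _ = _ := by ring
  have hHc : H.card ≤ (W0 \ H).card := by
    rw [Finset.card_sdiff_of_subset hH, cH]
    omega
  have hHc' : (W0 \ H).card ≤ H.card + 1 := by
    rw [Finset.card_sdiff_of_subset hH, cH]
    omega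
  -- count
  have hcount : ∀ (j c : Fin 5) (G : Finset (Fin N)),
      (∀ t, (u t = 0 ∨ u t = j) → u t ∉ Sm → t ∈ G) →
      N < e2 * cnt {0, j, 4} u → N < 4 * e2 * G.card := by
    intro j c G hG hj
    have h1 : cnt {0, j, 4} u ≤ G.card + cnt Sm u + g := by
      have : (univ.filter fun t => u t ∈ ({0, j, 4} : Finset (Fin 5))) ⊆
          (G ∪ (univ.filter fun t => u t ∈ Sm)) ∪
            (univ.filter fun t => u t ∈ ({4} : Finset (Fin 5))) := by
        intro t ht
        have ht' := (Finset.mem_filter.1 ht).2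
        simp only [Finset.mem_insert, Finset.mem_singleton] at ht'
        simp only [Finset.mem_union, Finset.mem_filter, Finset.mem_univ, true_and,
          Finset.mem_singleton]
        by_cases h : u t ∈ Sm
        · exact Or.inl (Or.inr h)
        · rcases ht' with h' | h' | h'
          · exact Or.inl (Or.inl (hG t (Or.inl h') h))
          · exact Or.inl (Or.inl (hG t (Or.inr h') h))
          · exact Or.inr h'
      refine (Finset.card_le_card this).trans ((Finset.card_union_le _ _).trans ?_)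
      exact Nat.add_le_add_right (Finset.card_union_le _ _) _
    have h2 : e2 * cnt {0, j, 4} u ≤ e2 * (G.card + cnt Sm u + g) := Nat.mul_le_mul_left _ h1
    have h3 : 4 * e2 * cnt Sm u ≤ e1 * cnt Sm u := Nat.mul_le_mul_right _ he1
    have h4 : 2 * e2 * g ≤ E * g := Nat.mul_le_mul_right _ hE
    nlinarith
  have hP0 : N ≤ 8 * e2 * ((P 0).card + 1) := by
    have h1 : N < 4 * e2 * ((univ.filter fun t => (u t = 0 ∨ u t = 1) ∧ u t ∉ Sm).card) :=
      hcount 1 0 _ (fun t h h' => Finset.mem_filter.2 ⟨Finset.mem_univ _, h, h'⟩) p2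
    have h2 : (univ.filter fun t => (u t = 0 ∨ u t = 1) ∧ u t ∉ Sm).card ≤
        2 * (P 0).card + 1 := by
      by_cases h0 : (0 : Fin 5) ∈ Sm
      · have : (univ.filter fun t => (u t = 0 ∨ u t = 1) ∧ u t ∉ Sm) ⊆ P 0 := by
          intro t ht
          obtain ⟨_, h, h'⟩ := Finset.mem_filter.1 ht
          rcases h with h | h
          · exact absurd (h ▸ h0) h'
          · refine Finset.mem_filter.2 ⟨Finset.mem_univ _, ?_, ?_, h'⟩
            · simp [hκ, h]
            · rw [h]; decide
        have := Finset.card_le_card this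
        omega
      · have hHP : H ⊆ P 0 := by
          intro t ht
          refine Finset.mem_filter.2 ⟨Finset.mem_univ _, ?_, ?_, ?_⟩
          · simp [hκ, hH0 t ht, ht]
          · rw [hH0 t ht]; decide
          · rw [hH0 t ht]; exact h0
        have : (univ.filter fun t => (u t = 0 ∨ u t = 1) ∧ u t ∉ Sm) ⊆ P 0 ∪ (W0 \ H) := by
          intro t ht
          obtain ⟨_, h, h'⟩ := Finset.mem_filter.1 ht
          rcases h with h | h
          · by_cases htH : t ∈ H
            · exact Finset.mem_union_left _ (hHP htH)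
            · refine Finset.mem_union_right _ (Finset.mem_sdiff.2 ⟨?_, htH⟩)
              exact Finset.mem_filter.2 ⟨Finset.mem_univ _, h⟩
          · refine Finset.mem_union_left _ (Finset.mem_filter.2 ⟨Finset.mem_univ _, ?_, ?_, h'⟩)
            · simp [hκ, h]
            · rw [h]; decide
        have h3 := (Finset.card_le_card this).trans (Finset.card_union_le _ _)
        have h4 := Finset.card_le_card hHP
        omega
    calc N ≤ 4 * e2 * (2 * (P 0).card + 1) := h1.le.trans (Nat.mul_le_mul_left _ h2)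
      _ ≤ 4 * e2 * (2 * ((P 0).card + 1)) := Nat.mul_le_mul_left _ (by omega)
      _ = _ := by ring
  have hP1 : N ≤ 8 * e2 * ((P 1).card + 1) := by
    have h1 : N < 4 * e2 * ((univ.filter fun t => (u t = 0 ∨ u t = 2) ∧ u t ∉ Sm).card) :=
      hcount 2 0 _ (fun t h h' => Finset.mem_filter.2 ⟨Finset.mem_univ _, h, h'⟩) p3
    have h2 : (univ.filter fun t => (u t = 0 ∨ u t = 2) ∧ u t ∉ Sm).card ≤
        2 * (P 1).card + 1 := by
      by_cases h0 : (0 : Fin 5) ∈ Sm
      · have : (univ.filter fun t => (u t = 0 ∨ u t = 2) ∧ u t ∉ Sm) ⊆ P 1 := by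
          intro t ht
          obtain ⟨_, h, h'⟩ := Finset.mem_filter.1 ht
          rcases h with h | h
          · exact absurd (h ▸ h0) h'
          · refine Finset.mem_filter.2 ⟨Finset.mem_univ _, ?_, ?_, h'⟩
            · simp [hκ, h]
            · rw [h]; decide
        have := Finset.card_le_card this
        omega
      · have hHP : W0 \ H ⊆ P 1 := by
          intro t ht
          have htH := (Finset.mem_sdiff.1 ht).2
          have h0' : u t = 0 := (Finset.mem_filter.1 (Finset.mem_sdiff.1 ht).1).2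
          refine Finset.mem_filter.2 ⟨Finset.mem_univ _, ?_, ?_, ?_⟩
          · simp [hκ, h0', htH]
          · rw [h0']; decide
          · rw [h0']; exact h0
        have : (univ.filter fun t => (u t = 0 ∨ u t = 2) ∧ u t ∉ Sm) ⊆ P 1 ∪ H := by
          intro t ht
          obtain ⟨_, h, h'⟩ := Finset.mem_filter.1 ht
          rcases h with h | h
          · by_cases htH : t ∈ H
            · exact Finset.mem_union_right _ htH
            · refine Finset.mem_union_left _ (hHP (Finset.mem_sdiff.2 ⟨?_, htH⟩))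
              exact Finset.mem_filter.2 ⟨Finset.mem_univ _, h⟩
          · refine Finset.mem_union_left _ (Finset.mem_filter.2 ⟨Finset.mem_univ _, ?_, ?_, h'⟩)
            · simp [hκ, h]
            · rw [h]; decide
        have h3 := (Finset.card_le_card this).trans (Finset.card_union_le _ _)
        have h4 := Finset.card_le_card hHP
        omega
    calc N ≤ 4 * e2 * (2 * (P 1).card + 1) := h1.le.trans (Nat.mul_le_mul_left _ h2)
      _ ≤ 4 * e2 * (2 * ((P 1).card + 1)) := Nat.mul_le_mul_left _ (by omega)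
      _ = _ := by ring
  have q0 := hgain' 0 (by decide) hP0
  have q1 := hgain' 1 (by decide) hP1
  have q2 : ∏ t, (if κ t = 2 then s t else W (u t)) ≤ F := by
    refine Finset.prod_le_prod' fun t _ => ?_
    by_cases h4 : u t = 4
    · simp [hκ, hs, h4]
    · have : κ t ≠ 2 := by
        simp only [hκ]
        generalize u t = j at h4
        fin_cases j
        · by_cases ht : t ∈ H <;> simp [ht]
        · simp
        · simp
        · simp
        · exact absurd rfl h4
      rw [if_neg this, if_neg h4]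
  refine (prod_rk1' hFS M F hB).mono ?_
  calc QQ M * (F + ∏ t, (if κ t = 2 then s t else W (u t))) +
        10 ^ (5 * M) * (∏ t, (if κ t = 1 then s t else W (u t)) +
          ∏ t, (if κ t = 0 then s t else W (u t)))
      = QQ M * (F + ∏ t, (if κ t = 2 then s t else W (u t))) +
        (10 ^ (5 * M) * (∏ t, (if κ t = 1 then s t else W (u t))) +
          10 ^ (5 * M) * ∏ t, (if κ t = 0 then s t else W (u t))) := by ring
    _ ≤ QQ M * (F + F) + (C * F + C * F) := by gcongr
    _ = _ := by ring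

/-- The sum over the words most of whose letters have a big first index. -/
theorem class_sum2 {τ σ d m : ℕ} {A : Fin 5 → α → β → γ → K} {W : Fin 5 → ℕ} (hC : Cl2 τ σ A W)
    (Sm : Finset (Fin 5)) (hlg : ∀ j, j ≠ 3 → j ≠ 4 → j ∉ Sm → τ * d ≤ W j) (hd : 1 ≤ d)
    (hm : W 0 + W 1 + W 2 + W 3 + σ ≤ m) (N M C e1 e2 E : ℕ)
    (n1 : ∀ g, E * g ≤ N → W 4 ^ g ≤ 4 ^ M * σ ^ g)
    (n2 : ∀ k, N ≤ 8 * e2 * (k + 1) → 10 ^ (5 * M) * 4 ^ M ≤ C * d ^ k)
    (hE : 2 * e2 ≤ E) (he1 : 4 * e2 ≤ e1) (Wt : Fin 5 → ℕ) (c0 : ℕ)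
    (htriv : ∀ u : Fin N → Fin 5, Rk (fun (x : Fin N → α) (y : Fin N → β) (z : Fin N → γ) =>
      ∏ t, A (u t) (x t) (y t) (z t)) (c0 * ∏ t, Wt (u t)))
    (x1 : ∑ u ∈ (univ : Finset (Fin N → Fin 5)).filter (fun u => N ≤ e1 * cnt Sm u),
      ∏ t, Wt (u t) ≤ m ^ N)
    (x2 : ∑ u ∈ (univ : Finset (Fin N → Fin 5)).filter (fun u => e2 * cnt {0, 1, 4} u ≤ N),
      ∏ t, Wt (u t) ≤ m ^ N)
    (x3 : ∑ u ∈ (univ : Finset (Fin N → Fin 5)).filter (fun u => e2 * cnt {0, 2, 4} u ≤ N),
      ∏ t, Wt (u t) ≤ m ^ N) :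
    Rk (fun (x : Fin N → α) (y : Fin N → β) (z : Fin N → γ) =>
        ∑ u ∈ (univ : Finset (Fin N → Fin 5)).filter (fun u => E * cnt {4} u ≤ N),
          ∏ t, A (u t) (x t) (y t) (z t))
      ((2 * QQ M + 2 * C + 3 * c0) * m ^ N) := by
  classical
  set F : (Fin N → Fin 5) → ℕ := fun u => ∏ t, (if u t = 4 then σ else W (u t)) with hF
  set f : (Fin N → Fin 5) → ℕ := fun u => ∏ t, Wt (u t) with hf
  set r : (Fin N → Fin 5) → ℕ := fun u => (2 * QQ M + 2 * C) * F u +
    c0 * ((if N ≤ e1 * cnt Sm u then f u else 0) +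
      ((if e2 * cnt {0, 1, 4} u ≤ N then f u else 0) +
      (if e2 * cnt {0, 2, 4} u ≤ N then f u else 0))) with hr
  have hle : ∀ (u : Fin N → Fin 5) (q : ℕ), f u ≤ q →
      c0 * f u ≤ (2 * QQ M + 2 * C) * F u + c0 * q := fun u q hq =>
    (Nat.mul_le_mul_left _ hq).trans (Nat.le_add_left _ _)
  have hw : ∀ u ∈ (univ : Finset (Fin N → Fin 5)).filter (fun u => E * cnt {4} u ≤ N),
      Rk (fun (x : Fin N → α) (y : Fin N → β) (z : Fin N → γ) =>
        ∏ t, A (u t) (x t) (y t) (z t)) (r u) := by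
    intro u hu
    have hg := (Finset.mem_filter.1 hu).2
    by_cases p1 : N ≤ e1 * cnt Sm u
    · refine (htriv u).mono (hle u _ ?_)
      rw [if_pos p1]
      omega
    · by_cases p2 : e2 * cnt {0, 1, 4} u ≤ N
      · refine (htriv u).mono (hle u _ ?_)
        rw [if_pos p2]
        omega
      · by_cases p3 : e2 * cnt {0, 2, 4} u ≤ N
        · refine (htriv u).mono (hle u _ ?_)
          rw [if_pos p3]
          omega
        · refine (good_word2 hC Sm hlg hd N M C e1 e2 E n1 n2 hE he1 u hg (not_le.1 p1)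
            (not_le.1 p2) (not_le.1 p3)).mono ?_
          simp only [hr]
          exact Nat.le_add_right _ _
  refine (Rk.sum _ _ r hw).mono ?_
  have hFsum : ∑ u, F u ≤ m ^ N := by
    have : ∑ u, F u = (∑ j : Fin 5, (if j = 4 then σ else W j)) ^ N :=
      words_sum (fun j : Fin 5 => if j = 4 then σ else W j)
    rw [this, Fin.sum_univ_five]
    refine Nat.pow_le_pow_left ?_ _
    simpa using hm
  calc ∑ u ∈ (univ : Finset (Fin N → Fin 5)).filter (fun u => E * cnt {4} u ≤ N), r u
      ≤ ∑ u, r u := Finset.sum_le_sum_of_subset (Finset.filter_subset _ _)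
    _ = (2 * QQ M + 2 * C) * ∑ u, F u +
        c0 * (∑ u ∈ univ.filter (fun u => N ≤ e1 * cnt Sm u), f u +
          (∑ u ∈ univ.filter (fun u => e2 * cnt {0, 1, 4} u ≤ N), f u +
            ∑ u ∈ univ.filter (fun u => e2 * cnt {0, 2, 4} u ≤ N), f u)) := by
        simp only [hr]
        rw [Finset.sum_add_distrib, ← Finset.mul_sum, ← Finset.mul_sum, Finset.sum_add_distrib,
          Finset.sum_add_distrib, ← Finset.sum_filter, ← Finset.sum_filter, ← Finset.sum_filter]
    _ ≤ (2 * QQ M + 2 * C) * m ^ N + c0 * (m ^ N + (m ^ N + m ^ N)) := by gcongr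
    _ = _ := by ring

end Pool.Agent.TH671.SK
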