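import Mathlib
import Pool.Agent.TH671.SH.Triv

/-!
# The remaining words
-/

set_option autoImplicit false
set_option linter.unusedSectionVars false

open Finset

namespace Pool.Agent.TH671.SK

open Pool.Agent.W329.AR Pool.Agent.TH671.SG Pool.Agent.TH671.SH

variable {K : Type*} [CommRing K]
variable {α β γ : Type*}

/-- Decompositions of the eight parts of a tensor: `0, 1, 2` are the parts with one big index (in
the first, second, third direction), `3, 4, 5` the parts with two big indices (`3`: the first index
is small, and so on), `6` the part with three big indices, `7` the part with three small indices.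
The parts `0`, ..., `5` have at most `τ` centres in each direction. -/
structure Good (τ σ : ℕ) (A : Fin 8 → α → β → γ → K) (W : Fin 8 → ℕ) (w : ℕ) : Prop where
  a00 : FS τ 0 (A 0) (W 0)
  a01 : FS τ 1 (A 0) (W 0)
  a11 : FS τ 1 (A 1) (W 1)
  a12 : FS τ 2 (A 1) (W 1)
  a22 : FS τ 2 (A 2) (W 2)
  a20 : FS τ 0 (A 2) (W 2)
  b0 : FS τ 2 (A 3) (W 3)
  b1 : FS τ 0 (A 4) (W 4)
  b2 : FS τ 1 (A 5) (W 5)
  tr : ∀ j, j ≠ 7 → ∀ κ, FS (W j) κ (A j) (W j)
  R0 : FS σ 2 (fun x y z => ∑ j ∈ ({1, 2, 3, 7} : Finset (Fin 8)), A j x y z) w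
  R1 : FS σ 0 (fun x y z => ∑ j ∈ ({0, 2, 4, 7} : Finset (Fin 8)), A j x y z) w
  R2 : FS σ 1 (fun x y z => ∑ j ∈ ({0, 1, 5, 7} : Finset (Fin 8)), A j x y z) w

theorem mid_word2 {τ σ w m ρ cz : ℕ} {A : Fin 8 → α → β → γ → K} {W : Fin 8 → ℕ}
    (hG : Good τ σ A W w) (Sm : Finset (Fin 8)) (h7 : (7 : Fin 8) ∈ Sm)
    (hWX : ∀ j, j ≠ 7 → W j ≤ m) (hρm : ρ ≤ m)
    (N M C e1 E : ℕ)
    (hZ : ∀ J : Finset (Fin N), Rk (fun (x : Fin N → α) (y : Fin N → β) (z : Fin N → γ) =>
        ∏ t, (if t ∈ J then A 7 (x t) (y t) (z t) else 1)) (cz * ρ ^ J.card))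
    (he1 : 2 * E ≤ e1) (m1 : 8 ^ N ≤ 4 ^ M)
    (m2 : ∀ k, k ≤ N → N ≤ 6 * E * (k + 1) → 8 ^ N * 10 ^ (5 * M) * τ ^ k ≤ C * m ^ k)
    (v : Fin N → Fin 8)
    (p0 : N < E * cnt {1, 2, 3, 7} v) (p1 : N < E * cnt {0, 2, 4, 7} v)
    (p2 : N < E * cnt {0, 1, 5, 7} v) (ps : e1 * cnt Sm v < N) :
    ∃ r, Rk (fun (x : Fin N → α) (y : Fin N → β) (z : Fin N → γ) =>
        ∏ t, A (v t) (x t) (y t) (z t)) r ∧
      r * 8 ^ N ≤ cz * (2 * QQ M + 3 * C) * m ^ N := by
  classical
  set V : Fin 8 → Finset (Fin N) := fun j => univ.filter fun t => v t = j ∧ v t ∉ Sm with hV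
  obtain ⟨H0, hH0, c0⟩ := Finset.exists_subset_card_eq (s := V 0) (n := (V 0).card / 2)
    (Nat.div_le_self _ _)
  obtain ⟨H1, hH1, c1⟩ := Finset.exists_subset_card_eq (s := V 1) (n := (V 1).card / 2)
    (Nat.div_le_self _ _)
  obtain ⟨H2, hH2, c2⟩ := Finset.exists_subset_card_eq (s := V 2) (n := (V 2).card / 2)
    (Nat.div_le_self _ _)
  have v7 : (V 7).card = 0 := by
    rw [Finset.card_eq_zero]
    refine Finset.filter_eq_empty_iff.2 ?_
    rintro t _ ⟨h1, h2⟩
    rw [h1] at h2
    exact h2 h7
  have s0 : (V 0 \ H0).card = (V 0).card - (V 0).card / 2 := by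
    rw [Finset.card_sdiff_of_subset hH0, c0]
  have s1 : (V 1 \ H1).card = (V 1).card - (V 1).card / 2 := by
    rw [Finset.card_sdiff_of_subset hH1, c1]
  have s2 : (V 2 \ H2).card = (V 2).card - (V 2).card / 2 := by
    rw [Finset.card_sdiff_of_subset hH2, c2]
  set κ : Fin N → Fin 3 := fun t => if v t = 0 then (if t ∈ H0 then 0 else 1) else
    if v t = 1 then (if t ∈ H1 then 1 else 2) else
    if v t = 2 then (if t ∈ H2 then 2 else 0) else
    if v t = 3 then 2 else if v t = 4 then 0 else if v t = 5 then 1 else 0 with hκ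
  set s : Fin N → ℕ := fun t => if v t = 7 then 1 else
    if v t = 6 ∨ v t ∈ Sm then W (v t) else τ with hs
  set W' : Fin N → ℕ := fun t => if v t = 7 then 1 else W (v t) with hW'
  have hFS : ∀ t, FS (s t) (κ t) (fun a b c => if v t = 7 then 1 else A (v t) a b c) (W' t) := by
    intro t
    by_cases h7' : v t = 7
    · have e1 : s t = 1 := by simp only [hs]; rw [if_pos h7']
      have e2 : W' t = 1 := by simp only [hW']; rw [if_pos h7']
      rw [e1, e2]
      exact (FS_one (K := K) (α := α) (β := β) (γ := γ) (κ t)).congr fun a b c => by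
        rw [if_pos h7']
    have e2 : W' t = W (v t) := by simp only [hW']; rw [if_neg h7']
    rw [e2]
    refine FS.congr (T := A (v t)) ?_ (fun a b c => by rw [if_neg h7'])
    by_cases h6 : v t = 6 ∨ v t ∈ Sm
    · have e1 : s t = W (v t) := by simp only [hs]; rw [if_neg h7', if_pos h6]
      rw [e1]
      exact hG.tr _ h7' _
    · have e1 : s t = τ := by simp only [hs]; rw [if_neg h7', if_neg h6]
      rw [e1]
      push Not at h6
      have h6' := h6.1
      simp only [hκ]
      generalize v t = j at h6' h7'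
      fin_cases j
      · by_cases ht : t ∈ H0
        · simpa [ht] using hG.a00
        · simpa [ht] using hG.a01
      · by_cases ht : t ∈ H1
        · simpa [ht] using hG.a11
        · simpa [ht] using hG.a12
      · by_cases ht : t ∈ H2
        · simpa [ht] using hG.a22
        · simpa [ht] using hG.a20
      · exact hG.b0
      · exact hG.b1
      · exact hG.b2
      · exact absurd rfl h6'
      · exact absurd rfl h7'
  set P : Fin 3 → Finset (Fin N) := fun c => univ.filter fun t => κ t = c ∧ v t ≠ 6 ∧ v t ∉ Sm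
    with hP
  have memV : ∀ {j : Fin 8} {t : Fin N}, t ∈ V j → v t = j ∧ v t ∉ Sm := fun ht =>
    (Finset.mem_filter.1 ht).2
  have memP : ∀ (c : Fin 3) (j : Fin 8) (t : Fin N), t ∈ V j → j ≠ 6 → κ t = c →
      v t = j ∧ t ∈ P c := by
    intro c j t ht hj hc
    obtain ⟨h1, h2⟩ := memV ht
    exact ⟨h1, Finset.mem_filter.2 ⟨Finset.mem_univ _, hc, by rw [h1]; exact hj, h2⟩⟩
  have k0 : (V 0).card + (V 2).card + (V 4).card + (V 7).card ≤ 3 * (P 0).card + 3 := by
    have := sum_le_card v (P 0) (fun j => if j = 0 then H0 else if j = 2 then V 2 \ H2 else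
      if j = 4 then V 4 else ∅) (by
        intro j t ht
        fin_cases j
        · have ht' : t ∈ H0 := by simpa using ht
          exact memP 0 0 t (hH0 ht') (by decide) (by simp [hκ, (memV (hH0 ht')).1, ht'])
        · exact absurd ht (by simp)
        · have ht' : t ∈ V 2 \ H2 := by simpa using ht
          have h1 := (Finset.mem_sdiff.1 ht').1
          have h2 := (Finset.mem_sdiff.1 ht').2
          exact memP 0 2 t h1 (by decide) (by simp [hκ, (memV h1).1, h2])
        · exact absurd ht (by simp)
        · have ht' : t ∈ V 4 := by simpa using ht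
          exact memP 0 4 t ht' (by decide) (by simp [hκ, (memV ht').1])
        · exact absurd ht (by simp)
        · exact absurd ht (by simp)
        · exact absurd ht (by simp))
    rw [Fin.sum_univ_eight] at this
    simp only [Fin.reduceEq, if_true, if_false, Finset.card_empty] at this
    omega
  have k1 : (V 0).card + (V 1).card + (V 5).card + (V 7).card ≤ 3 * (P 1).card + 3 := by
    have := sum_le_card v (P 1) (fun j => if j = 0 then V 0 \ H0 else if j = 1 then H1 else
      if j = 5 then V 5 else ∅) (by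
        intro j t ht
        fin_cases j
        · have ht' : t ∈ V 0 \ H0 := by simpa using ht
          have h1 := (Finset.mem_sdiff.1 ht').1
          have h2 := (Finset.mem_sdiff.1 ht').2
          exact memP 1 0 t h1 (by decide) (by simp [hκ, (memV h1).1, h2])
        · have ht' : t ∈ H1 := by simpa using ht
          exact memP 1 1 t (hH1 ht') (by decide) (by simp [hκ, (memV (hH1 ht')).1, ht'])
        · exact absurd ht (by simp)
        · exact absurd ht (by simp)
        · exact absurd ht (by simp)
        · have ht' : t ∈ V 5 := by simpa using ht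
          exact memP 1 5 t ht' (by decide) (by simp [hκ, (memV ht').1])
        · exact absurd ht (by simp)
        · exact absurd ht (by simp))
    rw [Fin.sum_univ_eight] at this
    simp only [Fin.reduceEq, if_true, if_false, Finset.card_empty] at this
    omega
  have k2 : (V 1).card + (V 2).card + (V 3).card + (V 7).card ≤ 3 * (P 2).card + 3 := by
    have := sum_le_card v (P 2) (fun j => if j = 1 then V 1 \ H1 else if j = 2 then H2 else
      if j = 3 then V 3 else ∅) (by
        intro j t ht
        fin_cases j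
        · exact absurd ht (by simp)
        · have ht' : t ∈ V 1 \ H1 := by simpa using ht
          have h1 := (Finset.mem_sdiff.1 ht').1
          have h2 := (Finset.mem_sdiff.1 ht').2
          exact memP 2 1 t h1 (by decide) (by simp [hκ, (memV h1).1, h2])
        · have ht' : t ∈ H2 := by simpa using ht
          exact memP 2 2 t (hH2 ht') (by decide) (by simp [hκ, (memV (hH2 ht')).1, ht'])
        · have ht' : t ∈ V 3 := by simpa using ht
          exact memP 2 3 t ht' (by decide) (by simp [hκ, (memV ht').1])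
        · exact absurd ht (by simp)
        · exact absurd ht (by simp)
        · exact absurd ht (by simp)
        · exact absurd ht (by simp))
    rw [Fin.sum_univ_eight] at this
    simp only [Fin.reduceEq, if_true, if_false, Finset.card_empty] at this
    omega
  have hcount : ∀ q k : ℕ, q ≤ k + cnt Sm v → N < E * q → N < 2 * E * k := by
    intro q k h1 h2
    have h3 : E * q ≤ E * (k + cnt Sm v) := Nat.mul_le_mul_left _ h1
    have h4 : 2 * E * cnt Sm v ≤ e1 * cnt Sm v := Nat.mul_le_mul_right _ he1
    nlinarith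
  have hlast : ∀ k p : ℕ, N < 2 * E * k → k ≤ 3 * p + 3 → N ≤ 6 * E * (p + 1) := by
    intro k p h1 h2
    calc N ≤ 2 * E * k := h1.le
      _ ≤ 2 * E * (3 * p + 3) := Nat.mul_le_mul_left _ h2
      _ = _ := by ring
  have g0 : N ≤ 6 * E * ((P 0).card + 1) :=
    hlast _ _ (hcount _ _ (cnt_four_le v Sm 0 2 4 7) p1) k0
  have g1 : N ≤ 6 * E * ((P 1).card + 1) :=
    hlast _ _ (hcount _ _ (cnt_four_le v Sm 0 1 5 7) p2) k1
  have g2 : N ≤ 6 * E * ((P 2).card + 1) :=
    hlast _ _ (hcount _ _ (cnt_four_le v Sm 1 2 3 7) p0) k2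
  obtain ⟨r, hr, hr2⟩ := prod_rk2' hFS M
  set J : Finset (Fin N) := univ.filter fun t => v t = 7 with hJ
  have hJc : J.card ≤ N := by simpa using Finset.card_le_univ J
  have hJm : ∀ x : Fin N → ℕ, (∀ t, v t = 7 → x t = 1) →
      (∏ t, x t) * m ^ J.card = ∏ t, (if v t = 7 then m else x t) := by
    intro x hx
    have : m ^ J.card = ∏ t : Fin N, (if v t = 7 then m else 1) := by
      rw [Finset.prod_ite, Finset.prod_const, Finset.prod_const_one, mul_one]
    rw [this, ← Finset.prod_mul_distrib]
    refine Finset.prod_congr rfl fun t _ => ?_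
    by_cases h : v t = 7
    · rw [if_pos h, if_pos h, hx t h, one_mul]
    · rw [if_neg h, if_neg h, mul_one]
  refine ⟨r * (cz * ρ ^ J.card), ?_, ?_⟩
  · refine (Rk.hmul hr (hZ J)).congr fun x y z => ?_
    rw [← Finset.prod_mul_distrib]
    refine Finset.prod_congr rfl fun t _ => ?_
    by_cases ht : v t = 7
    · have : t ∈ J := Finset.mem_filter.2 ⟨Finset.mem_univ _, ht⟩
      rw [if_pos ht, if_pos this, one_mul, ht]
    · have : t ∉ J := fun h => ht (Finset.mem_filter.1 h).2
      rw [if_neg ht, if_neg this, mul_one]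
  have hρJ : ρ ^ J.card ≤ m ^ J.card := Nat.pow_le_pow_left hρm _
  have key : ∀ c : Fin 3, N ≤ 6 * E * ((P c).card + 1) →
      4 ^ M * 10 ^ (5 * M) * ((∏ t, (if κ t = c then s t else W' t)) * m ^ J.card) * 8 ^ N ≤
        4 ^ M * (C * m ^ N) := by
    intro c hc
    set k := (P c).card with hk
    have hkN : k ≤ N := by
      have := Finset.card_le_univ (P c)
      simpa using this
    have h3 : (∏ t, (if κ t = c then s t else W' t)) * m ^ J.card ≤ τ ^ k * m ^ (N - k) := by
      rw [hJm _ (by
        intro t ht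
        by_cases h1 : κ t = c
        · rw [if_pos h1]
          simp only [hs]
          rw [if_pos ht]
        · rw [if_neg h1]
          simp only [hW']
          rw [if_pos ht])]
      calc ∏ t, (if v t = 7 then m else (if κ t = c then s t else W' t)) ≤
            ∏ t, (if t ∈ P c then τ else m) := by
            refine Finset.prod_le_prod' fun t _ => ?_
            by_cases ht : t ∈ P c
            · obtain ⟨_, h1, h2, h3⟩ := Finset.mem_filter.1 ht
              have h7' : v t ≠ 7 := fun h => h3 (h ▸ h7)
              rw [if_pos ht, if_neg h7', if_pos h1]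
              simp only [hs]
              rw [if_neg h7', if_neg (by tauto)]
            · rw [if_neg ht]
              by_cases h7' : v t = 7
              · rw [if_pos h7']
              rw [if_neg h7']
              by_cases h1 : κ t = c
              · have h2 : v t = 6 ∨ v t ∈ Sm := by
                  by_contra h2
                  push Not at h2
                  exact ht (Finset.mem_filter.2 ⟨Finset.mem_univ _, h1, h2.1, h2.2⟩)
                rw [if_pos h1]
                simp only [hs]
                rw [if_neg h7', if_pos h2]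
                exact hWX _ h7'
              · rw [if_neg h1]
                simp only [hW']
                rw [if_neg h7']
                exact hWX _ h7'
        _ = _ := by
            rw [Finset.prod_ite, Finset.prod_const, Finset.prod_const]
            have e1 : (univ.filter fun t => t ∈ P c) = P c := by ext t; simp
            have e2 : (univ.filter fun t => t ∉ P c).card = N - k := by
              have := Finset.card_filter_add_card_filter_not
                (s := (Finset.univ : Finset (Fin N))) (fun t => t ∈ P c)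
              rw [e1, Finset.card_univ, Fintype.card_fin] at this
              omega
            rw [e1, e2]
    have h4 := m2 k hkN hc
    calc 4 ^ M * 10 ^ (5 * M) * ((∏ t, (if κ t = c then s t else W' t)) * m ^ J.card) * 8 ^ N
        ≤ 4 ^ M * 10 ^ (5 * M) * (τ ^ k * m ^ (N - k)) * 8 ^ N := by gcongr
      _ = 4 ^ M * ((8 ^ N * 10 ^ (5 * M) * τ ^ k) * m ^ (N - k)) := by ring
      _ ≤ 4 ^ M * ((C * m ^ k) * m ^ (N - k)) := by gcongr
      _ = 4 ^ M * (C * (m ^ k * m ^ (N - k))) := by ring
      _ = _ := by rw [← pow_add, Nat.add_sub_cancel' hkN]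
  have q0 := key 0 g0
  have q1 := key 1 g1
  have q2 := key 2 g2
  have hWN : (∏ t, W' t) * m ^ J.card ≤ m ^ N := by
    rw [hJm _ (by
      intro t ht
      simp only [hW']
      rw [if_pos ht])]
    calc ∏ t, (if v t = 7 then m else W' t) ≤ ∏ _t : Fin N, m := by
          refine Finset.prod_le_prod' fun t _ => ?_
          by_cases h : v t = 7
          · rw [if_pos h]
          · rw [if_neg h]
            simp only [hW']
            rw [if_neg h]
            exact hWX _ h
      _ = m ^ N := by simp
  have hfirst : 2 * QQ M * ((∏ t, W' t) * m ^ J.card) * 8 ^ N ≤ 4 ^ M * (2 * QQ M * m ^ N) := by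
    calc 2 * QQ M * ((∏ t, W' t) * m ^ J.card) * 8 ^ N
        ≤ 2 * QQ M * m ^ N * 4 ^ M := by gcongr
      _ = _ := by ring
  have hfin : 4 ^ M * (r * (cz * ρ ^ J.card) * 8 ^ N) ≤
      4 ^ M * (cz * (2 * QQ M + 3 * C) * m ^ N) := by
    calc 4 ^ M * (r * (cz * ρ ^ J.card) * 8 ^ N)
        = cz * ((r * 4 ^ M) * ρ ^ J.card * 8 ^ N) := by ring
      _ ≤ cz * ((2 * QQ M * (∏ t, W' t) + 4 ^ M * 10 ^ (5 * M) *
          (∏ t, (if κ t = 2 then s t else W' t) +
            ∏ t, (if κ t = 0 then s t else W' t) +
            ∏ t, (if κ t = 1 then s t else W' t))) * m ^ J.card * 8 ^ N) := by gcongr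
      _ = cz * (2 * QQ M * ((∏ t, W' t) * m ^ J.card) * 8 ^ N +
          (4 ^ M * 10 ^ (5 * M) * ((∏ t, (if κ t = 2 then s t else W' t)) * m ^ J.card) * 8 ^ N +
            4 ^ M * 10 ^ (5 * M) * ((∏ t, (if κ t = 0 then s t else W' t)) * m ^ J.card) * 8 ^ N +
            4 ^ M * 10 ^ (5 * M) * ((∏ t, (if κ t = 1 then s t else W' t)) *
              m ^ J.card) * 8 ^ N)) := by
          ring
      _ ≤ cz * (4 ^ M * (2 * QQ M * m ^ N) + (4 ^ M * (C * m ^ N) +
          4 ^ M * (C * m ^ N) + 4 ^ M * (C * m ^ N))) :=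
          Nat.mul_le_mul_left _
            (Nat.add_le_add hfirst (Nat.add_le_add (Nat.add_le_add q2 q0) q1))
      _ = _ := by ring
  exact Nat.le_of_mul_le_mul_left hfin (by positivity)

end Pool.Agent.TH671.SK
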