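import Mathlib
import Pool.Agent.TH671.SK.Master
import Pool.Agent.TH671.SH.Numbers

/-!
# The constants
-/

set_option autoImplicit false
set_option linter.unusedSectionVars false

open Finset

namespace Pool.Agent.TH671.SK

open Pool.Agent.W329.AR Pool.Agent.TH671.SG Pool.Agent.TH671.SH

theorem numbers2 (h K : ℕ) (hh : 1 ≤ h) : ∃ D : ℕ, 1 ≤ D ∧ ∀ τ σ m ρ wq : ℕ, 1 ≤ τ →
    D * τ ≤ m → D * ρ ≤ m → wq * τ ^ K ≤ σ * m ^ K → ∃ e1 e2 E d M C B C' : ℕ, ∀ N : ℕ,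
      Num2 τ σ m ρ wq N h e1 e2 E d (M * N) C B C' := by
  obtain ⟨a, ha⟩ : ∃ a, 2 * h = a + 1 := ⟨2 * h - 1, by omega⟩
  have ha1 : 1 ≤ a := by omega
  obtain ⟨e2, he2⟩ : ∃ e2 : ℕ, e2 = a * (2 * h * 32) := ⟨_, rfl⟩
  have he2' : 1 ≤ e2 := by
    rw [he2]
    exact Nat.mul_pos ha1 (by positivity)
  obtain ⟨X0, hX0⟩ : ∃ X0 : ℕ, X0 = 400000 := ⟨_, rfl⟩
  have hX2 : 2 ≤ X0 := by rw [hX0]; norm_num
  have hXp : 0 < X0 := by omega
  obtain ⟨Y, hY⟩ : ∃ Y : ℕ, Y = X0 ^ (8 * e2) := ⟨_, rfl⟩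
  have hY2 : 2 ≤ Y := by
    rw [hY]
    calc 2 ≤ X0 := hX2
      _ = X0 ^ 1 := (pow_one _).symm
      _ ≤ _ := Nat.pow_le_pow_right hXp (by omega)
  have hY0 : 0 < Y := by omega
  obtain ⟨E, hE⟩ : ∃ E : ℕ, E = 240 * (K + 1) * e2 := ⟨_, rfl⟩
  have hE2 : 2 * e2 ≤ E := by
    rw [hE]
    exact Nat.mul_le_mul_right _ (by omega)
  have hE1 : 1 ≤ E := by omega
  have hEY : Y ^ (3 * K) ≤ 4 ^ E := by
    calc Y ^ (3 * K) = X0 ^ (24 * K * e2) := by rw [hY, ← pow_mul]; congr 1; ring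
      _ ≤ (4 ^ 10) ^ (24 * K * e2) := Nat.pow_le_pow_left (by rw [hX0]; norm_num) _
      _ = 4 ^ (240 * K * e2) := by rw [← pow_mul]; congr 1; ring
      _ ≤ 4 ^ E := by
          refine Nat.pow_le_pow_right (by norm_num) ?_
          rw [hE]
          gcongr
          omega
  obtain ⟨e1, he1⟩ : ∃ e1 : ℕ, e1 = 2 * E := ⟨_, rfl⟩
  obtain ⟨t0, ht0⟩ : ∃ t0 : ℕ, t0 = 32 ^ e1 := ⟨_, rfl⟩
  have ht0' : 0 < t0 := by rw [ht0]; positivity
  obtain ⟨R1, hR1⟩ : ∃ R1 : ℕ, R1 = 2 * t0 := ⟨_, rfl⟩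
  have hR0 : 1 ≤ R1 := by omega
  obtain ⟨Y2, hY2'⟩ : ∃ Y2 : ℕ, Y2 = (8 * 10 ^ 10) ^ (6 * E) := ⟨_, rfl⟩
  have hY20 : 0 < Y2 := by rw [hY2']; positivity
  have hYR : 0 < Y ^ R1 := by positivity
  refine ⟨t0 * Y ^ R1 * Y2, Nat.mul_pos (Nat.mul_pos ht0' hYR) hY20,
    fun τ σ m ρ wq hτ hτm hρm hw => ?_⟩
  -- the number `d`
  set d := m / (τ * t0) with hd
  have hτt : 0 < τ * t0 := Nat.mul_pos hτ ht0'
  have hdm : d * (τ * t0) ≤ m := Nat.div_mul_le_self _ _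
  have hYd : Y ^ R1 ≤ d := by
    rw [hd, Nat.le_div_iff_mul_le hτt]
    calc Y ^ R1 * (τ * t0) = (t0 * Y ^ R1 * 1) * τ := by ring
      _ ≤ (t0 * Y ^ R1 * Y2) * τ := by
          gcongr
          exact hY20
      _ ≤ m := hτm
  have hd1 : 1 ≤ d := le_trans hYR hYd
  have hmd : m ≤ R1 * d * τ := by
    have h1 := Nat.lt_div_mul_add (a := m) (b := τ * t0) hτt
    rw [← hd] at h1
    have h2 : τ * t0 ≤ d * (τ * t0) := Nat.le_mul_of_pos_left _ hd1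
    calc m ≤ d * (τ * t0) + τ * t0 := h1.le
      _ ≤ d * (τ * t0) + d * (τ * t0) := Nat.add_le_add_left h2 _
      _ = _ := by rw [hR1]; ring
  set M := Nat.log Y d with hM
  have hMl : Y ^ M ≤ d := Nat.pow_log_le_self _ (by omega)
  have hMu : d < Y ^ (M + 1) := Nat.lt_pow_succ_log_self (by omega) d
  have hRM : R1 ≤ M := by
    rw [hM]
    exact Nat.le_log_of_pow_le (by omega) hYd
  have hRY : R1 ≤ Y ^ M := by
    calc R1 ≤ M := hRM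
      _ ≤ 2 ^ M := Nat.lt_two_pow_self.le
      _ ≤ Y ^ M := Nat.pow_le_pow_left hY2 _
  have hwσ : wq ≤ (4 ^ E) ^ M * σ := by
    have h1 : wq * τ ^ K ≤ ((R1 * d) ^ K * σ) * τ ^ K := by
      calc wq * τ ^ K ≤ σ * m ^ K := hw
        _ ≤ σ * (R1 * d * τ) ^ K := by gcongr
        _ = _ := by rw [mul_pow]; ring
    have hτK : 0 < τ ^ K := by positivity
    have h2 := Nat.le_of_mul_le_mul_right h1 hτK
    refine h2.trans (Nat.mul_le_mul_right _ ?_)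
    calc (R1 * d) ^ K ≤ (Y ^ M * Y ^ (M + 1)) ^ K :=
          Nat.pow_le_pow_left (Nat.mul_le_mul hRY hMu.le) _
      _ ≤ (Y ^ (3 * M)) ^ K := by
          refine Nat.pow_le_pow_left ?_ _
          rw [← pow_add]
          exact Nat.pow_le_pow_right hY0 (by omega)
      _ = (Y ^ (3 * K)) ^ M := by rw [← pow_mul, ← pow_mul]; congr 1; ring
      _ ≤ _ := Nat.pow_le_pow_left hEY _
  refine ⟨e1, e2, E, d, M, d, 2, Y2, fun N => ?_⟩
  refine ⟨hh, hd1, he1.ge, hE2, ?_, ?_, ?_, ?_, ?_, ?_, ?_⟩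
  · calc τ * d * 32 ^ e1 = d * (τ * t0) := by rw [ht0]; ring
      _ ≤ m := hdm
  · calc 32 ^ e1 * ρ = t0 * 1 * 1 * ρ := by rw [ht0]; ring
      _ ≤ t0 * Y ^ R1 * Y2 * ρ := by
          gcongr
          · exact hYR
          · exact hY20
      _ ≤ m := hρm
  · have h1 := bern' a (2 * h * 32) ha1
    rw [← he2] at h1
    have h2 : 2 * h - 1 = a := by omega
    rw [h2]
    rw [← ha] at h1
    exact h1
  · intro g hg
    calc wq ^ g ≤ ((4 ^ E) ^ M * σ) ^ g := Nat.pow_le_pow_left hwσ _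
      _ = 4 ^ (M * (E * g)) * σ ^ g := by
          rw [mul_pow, ← pow_mul, ← pow_mul]
          congr 2
          ring
      _ ≤ 4 ^ (M * N) * σ ^ g := by
          refine Nat.mul_le_mul_right _ (Nat.pow_le_pow_right (by norm_num) ?_)
          exact Nat.mul_le_mul_left _ hg
  · intro k hk
    calc 10 ^ (5 * (M * N)) * 4 ^ (M * N) = X0 ^ (M * N) := by
          rw [pow_mul, ← mul_pow, hX0]
          norm_num
      _ ≤ X0 ^ (M * (8 * e2 * (k + 1))) :=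
          Nat.pow_le_pow_right hXp (Nat.mul_le_mul_left _ hk)
      _ = (Y ^ M) ^ (k + 1) := by
          rw [hY, ← pow_mul, ← pow_mul]
          congr 1
          ring
      _ ≤ d ^ (k + 1) := Nat.pow_le_pow_left hMl _
      _ = d * d ^ k := by rw [pow_succ]; ring
  · calc 8 ^ N ≤ 16 ^ N := Nat.pow_le_pow_left (by norm_num) _
      _ = 4 ^ (2 * N) := by rw [pow_mul]; norm_num
  · intro k _ hk
    calc 8 ^ N * 10 ^ (5 * (2 * N)) * τ ^ k = (8 * 10 ^ 10) ^ N * τ ^ k := by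
          rw [mul_pow, ← pow_mul]
          congr 3
          ring
      _ ≤ (8 * 10 ^ 10) ^ (6 * E * (k + 1)) * τ ^ k :=
          Nat.mul_le_mul_right _ (Nat.pow_le_pow_right (by positivity) hk)
      _ = Y2 ^ (k + 1) * τ ^ k := by rw [hY2', ← pow_mul]
      _ = Y2 * (Y2 * τ) ^ k := by rw [mul_pow, pow_succ]; ring
      _ ≤ Y2 * m ^ k := by
          gcongr
          calc Y2 * τ = 1 * 1 * Y2 * τ := by ring
            _ ≤ t0 * Y ^ R1 * Y2 * τ := by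
                gcongr
                · exact ht0'
                · exact hYR
            _ ≤ m := hτm

variable {K : Type*} [CommRing K]

/-- **The bound for the ranks of the Kronecker powers.** -/
theorem rk_bound2 (h k : ℕ) (hh : 1 ≤ h) : ∃ D : ℕ, 1 ≤ D ∧ ∀ τ σ m ρ wq cz : ℕ, 1 ≤ τ →
    D * τ ≤ m → D * ρ ≤ m → wq * τ ^ k ≤ σ * m ^ k →
    ∃ c : ℕ, ∀ (α : Type) (T : α → α → α → K) (A : Fin 8 → α → α → α → K)
      (W : Fin 8 → ℕ) (w : ℕ), (∀ x y z, T x y z = ∑ j, A j x y z) → Good τ σ A W w →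
      w ≤ wq → (∀ n : ℕ, Rk (kpow (A 7) n) (cz * ρ ^ n)) →
      W 0 + W 4 + W 5 + W 6 + σ ≤ m → W 1 + W 5 + W 3 + W 6 + σ ≤ m →
      W 2 + W 3 + W 4 + W 6 + σ ≤ m →
      h * (W 3 + W 6) ≤ (h - 1) * m → h * (W 4 + W 6) ≤ (h - 1) * m →
      h * (W 5 + W 6) ≤ (h - 1) * m →
      ∀ n : ℕ, Rk (kpow T (n + 1)) (c * (n + 1) ^ 3 * m ^ (n + 1)) := by
  obtain ⟨D, hD, hn⟩ := numbers2 h k hh
  refine ⟨D, hD, fun τ σ m ρ wq cz hτ hτm hρm hwq => ?_⟩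
  obtain ⟨e1, e2, E, d, M, C, B, C', hNum⟩ := hn τ σ m ρ wq hτ hτm hρm hwq
  have hQ : ∀ B n : ℕ, QQ (B * (n + 1)) ≤ 16 * (20 * B + 1) ^ 3 * (n + 1) ^ 3 := by
    intro B n
    unfold QQ
    calc 16 * (20 * (B * (n + 1)) + 1) ^ 3 ≤ 16 * ((20 * B + 1) * (n + 1)) ^ 3 := by
          gcongr
          nlinarith
      _ = _ := by ring
  obtain ⟨q1, hq1⟩ : ∃ q1, q1 = 16 * (20 * M + 1) ^ 3 := ⟨_, rfl⟩
  obtain ⟨q2, hq2⟩ : ∃ q2, q2 = 16 * (20 * B + 1) ^ 3 := ⟨_, rfl⟩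
  refine ⟨3 * (2 * q1 + 2 * C + 3 * cz) + cz * (2 * q2 + 3 * C') + 4 * cz,
    fun α T A W w hT hG hw hZ hX hY hZ' c0 c1 c2 n => ?_⟩
  have hzf : ∀ J : Finset (Fin (n + 1)), Rk (fun (x : Fin (n + 1) → α) (y : Fin (n + 1) → α)
      (z : Fin (n + 1) → α) => ∏ t, (if t ∈ J then A 7 (x t) (y t) (z t) else 1))
      (cz * ρ ^ J.card) := by
    classical
    intro J
    let e : Fin J.card ≃ J := (Fintype.equivFinOfCardEq (Fintype.card_coe J)).symm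
    refine (Rk.comp (hZ J.card) (fun (a : Fin (n + 1) → α) s => a (e s))
      (fun (a : Fin (n + 1) → α) s => a (e s)) (fun (a : Fin (n + 1) → α) s => a (e s))).congr
      fun a b c => ?_
    simp only [kpow]
    rw [Finset.prod_ite, Finset.prod_const_one, mul_one]
    have h1 : ∏ s : Fin J.card, A 7 (a (e s)) (b (e s)) (c (e s)) =
        ∏ t : J, A 7 (a t) (b t) (c t) :=
      Equiv.prod_comp e (fun t : J => A 7 (a t) (b t) (c t))
    rw [h1, Finset.prod_coe_sort J (fun t => A 7 (a t) (b t) (c t))]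
    refine Finset.prod_congr ?_ fun _ _ => rfl
    ext t
    simp
  refine (master2 (hNum (n + 1)) hT hG hw hzf hX hY hZ' c0 c1 c2).mono ?_
  refine Nat.mul_le_mul_right _ ?_
  have h1 : 1 ≤ (n + 1) ^ 3 := Nat.one_le_pow _ _ (by omega)
  have hb := hQ M n
  have hb' := hQ B n
  rw [← hq1] at hb
  rw [← hq2] at hb'
  have a1 : C ≤ C * (n + 1) ^ 3 := Nat.le_mul_of_pos_right _ h1
  have a2 : C' ≤ C' * (n + 1) ^ 3 := Nat.le_mul_of_pos_right _ h1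
  have a3 : cz ≤ cz * (n + 1) ^ 3 := Nat.le_mul_of_pos_right _ h1
  calc 3 * (2 * QQ (M * (n + 1)) + 2 * C + 3 * cz) + cz * (2 * QQ (B * (n + 1)) + 3 * C') +
        4 * cz
      ≤ 3 * (2 * (q1 * (n + 1) ^ 3) + 2 * (C * (n + 1) ^ 3) + 3 * (cz * (n + 1) ^ 3)) +
        cz * (2 * (q2 * (n + 1) ^ 3) + 3 * (C' * (n + 1) ^ 3)) +
          4 * (cz * (n + 1) ^ 3) := by gcongr
    _ = _ := by ring

end Pool.Agent.TH671.SK
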