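import Mathlib
import Pool.Agent.TH671.SK.Defs
import Pool.Agent.TH671.SK.Numbers
import Pool.Agent.TH671.SH.Coord

/-!
# Tensors most of whose indices are simple
-/

set_option autoImplicit false
set_option linter.unusedSectionVars false

open Finset

namespace Pool.Agent.TH671.SK

open Pool.Agent.W329.AR Pool.Agent.TH671.SG Pool.Agent.TH671.SH

variable {ι : Type} [Fintype ι] [DecidableEq ι] {K : Type*} [CommRing K]
variable {H : Finset (ι × ι × ι)} {S1 S2 S3 C1 C2 C3 : Finset ι} {h w σ τ : ℕ}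

theorem Sprs.good (hs : Sprs H S1 S2 S3 C1 C2 C3 h w) (T : ι → ι → ι → K)
    (hT : ∀ x y z, (x, y, z) ∉ H → T x y z = 0) (c1 : S1.card = σ) (c2 : S2.card = σ)
    (c3 : S3.card = σ) (k1 : C1.card ≤ τ) (k2 : C2.card ≤ τ) (k3 : C3.card ≤ τ) {w' : ℕ}
    (hw0 : wt H S1 S2 S3 w 1 + wt H S1 S2 S3 w 2 + wt H S1 S2 S3 w 3 + w ≤ w')
    (hw1 : wt H S1 S2 S3 w 0 + wt H S1 S2 S3 w 2 + wt H S1 S2 S3 w 4 + w ≤ w')
    (hw2 : wt H S1 S2 S3 w 0 + wt H S1 S2 S3 w 1 + wt H S1 S2 S3 w 5 + w ≤ w') :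
    Good τ σ (fun j => prt T (pat S1 S2 S3 j)) (wt H S1 S2 S3 w) w' := by
  classical
  have hT' : ∀ x y z, T x y z ≠ 0 → (x, y, z) ∈ H := fun x y z h => by
    by_contra h'
    exact h (hT x y z h')
  -- general facts on the parts
  have f2 : ∀ (C : Finset ι) (p : ι → ι → ι → Prop) (q : ι × ι × ι → Prop) [DecidablePred q],
      (∀ x y z, p x y z → q (x, y, z)) → (∀ e ∈ H, q e → e.1 ∈ C) →
      FS C.card 2 (prt T p) ((H.filter q).image fun e => (e.1, e.2.1)).card := by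
    intro C p q _ hpq hq
    refine fs2 _ C _ ?_ ?_
    · intro a ha
      obtain ⟨e, he, rfl⟩ := Finset.mem_image.1 ha
      exact hq e (Finset.mem_filter.1 he).1 (Finset.mem_filter.1 he).2
    · intro x y z hne
      by_cases hp : p x y z
      · simp only [prt, if_pos hp] at hne
        exact Finset.mem_image.2 ⟨(x, y, z), Finset.mem_filter.2 ⟨hT' x y z hne, hpq _ _ _ hp⟩, rfl⟩
      · simp only [prt, if_neg hp] at hne
        exact absurd rfl hne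
  have f0 : ∀ (C : Finset ι) (p : ι → ι → ι → Prop) (q : ι × ι × ι → Prop) [DecidablePred q],
      (∀ x y z, p x y z → q (x, y, z)) → (∀ e ∈ H, q e → e.2.1 ∈ C) →
      FS C.card 0 (prt T p) ((H.filter q).image fun e => (e.1, e.2.1)).card := by
    intro C p q _ hpq hq
    refine fs0 _ C _ ?_ ?_
    · intro a ha
      obtain ⟨e, he, rfl⟩ := Finset.mem_image.1 ha
      exact hq e (Finset.mem_filter.1 he).1 (Finset.mem_filter.1 he).2
    · intro x y z hne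
      by_cases hp : p x y z
      · simp only [prt, if_pos hp] at hne
        exact Finset.mem_image.2 ⟨(x, y, z), Finset.mem_filter.2 ⟨hT' x y z hne, hpq _ _ _ hp⟩, rfl⟩
      · simp only [prt, if_neg hp] at hne
        exact absurd rfl hne
  have f1 : ∀ (C : Finset ι) (p : ι → ι → ι → Prop) (q : ι × ι × ι → Prop) [DecidablePred q],
      (∀ x y z, p x y z → q (x, y, z)) → (∀ e ∈ H, q e → e.2.2 ∈ C) →
      FS C.card 1 (prt T p) ((H.filter q).image fun e => e.2).card := by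
    intro C p q _ hpq hq
    refine fs1 _ C _ ?_ ?_
    · intro a ha
      obtain ⟨e, he, rfl⟩ := Finset.mem_image.1 ha
      exact hq e (Finset.mem_filter.1 he).1 (Finset.mem_filter.1 he).2
    · intro x y z hne
      by_cases hp : p x y z
      · simp only [prt, if_pos hp] at hne
        exact Finset.mem_image.2 ⟨(x, y, z), Finset.mem_filter.2 ⟨hT' x y z hne, hpq _ _ _ hp⟩, rfl⟩
      · simp only [prt, if_neg hp] at hne
        exact absurd rfl hne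
  have ft : ∀ (p : ι → ι → ι → Prop) (q : ι × ι × ι → Prop) [DecidablePred q] (κ : Fin 3),
      (∀ x y z, p x y z → q (x, y, z)) → FS (H.filter q).card κ (prt T p) (H.filter q).card := by
    intro p q _ κ hpq
    refine fs_tr _ _ ?_ κ
    intro x y z hne
    by_cases hp : p x y z
    · simp only [prt, if_pos hp] at hne
      exact Finset.mem_filter.2 ⟨hT' x y z hne, hpq _ _ _ hp⟩
    · simp only [prt, if_neg hp] at hne
      exact absurd rfl hne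
  have himg : ∀ (q : ι × ι × ι → Prop) [DecidablePred q] (f : ι × ι × ι → ι × ι),
      ((H.filter q).image f).card ≤ (H.filter q).card := fun q _ f => Finset.card_image_le
  -- unions
  have hun : ∀ (f : ι × ι × ι → ι × ι) (q q1 q2 q3 q4 : ι × ι × ι → Prop) [DecidablePred q]
      [DecidablePred q1] [DecidablePred q2] [DecidablePred q3] [DecidablePred q4],
      (∀ e, q e → q1 e ∨ q2 e ∨ q3 e ∨ q4 e) → ((H.filter q4).image f).card ≤ w →
      ((H.filter q).image f).card ≤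
        (H.filter q1).card + (H.filter q2).card + (H.filter q3).card + w := by
    intro f q q1 q2 q3 q4 _ _ _ _ _ hq h4
    have hsub : (H.filter q) ⊆ (H.filter q1) ∪ ((H.filter q2) ∪ ((H.filter q3) ∪
        (H.filter q4))) := by
      intro e he
      obtain ⟨a1, a2⟩ := Finset.mem_filter.1 he
      simp only [Finset.mem_union, Finset.mem_filter]
      rcases hq e a2 with h | h | h | h
      · exact Or.inl ⟨a1, h⟩
      · exact Or.inr (Or.inl ⟨a1, h⟩)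
      · exact Or.inr (Or.inr (Or.inl ⟨a1, h⟩))
      · exact Or.inr (Or.inr (Or.inr ⟨a1, h⟩))
    refine (Finset.card_le_card (Finset.image_subset_image hsub)).trans ?_
    rw [Finset.image_union, Finset.image_union, Finset.image_union]
    have b1 := Finset.card_union_le ((H.filter q1).image f) ((H.filter q2).image f ∪
      ((H.filter q3).image f ∪ (H.filter q4).image f))
    have b2 := Finset.card_union_le ((H.filter q2).image f)
      ((H.filter q3).image f ∪ (H.filter q4).image f)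
    have b3 := Finset.card_union_le ((H.filter q3).image f) ((H.filter q4).image f)
    have g1 := himg q1 f
    have g2 := himg q2 f
    have g3 := himg q3 f
    omega
  refine ⟨?_, ?_, ?_, ?_, ?_, ?_, ?_, ?_, ?_, ?_, ?_, ?_, ?_⟩
  · exact (f0 C2 (pat S1 S2 S3 0) (fun e => e.1 ∉ S1 ∧ e.2.1 ∈ S2 ∧ e.2.2 ∈ S3)
      (fun _ _ _ h => h) (fun e he h => hs.c2 e he h.2.1 (Or.inl h.1))).mono k2 (himg _ _)
  · exact (f1 C3 (pat S1 S2 S3 0) (fun e => e.1 ∉ S1 ∧ e.2.1 ∈ S2 ∧ e.2.2 ∈ S3)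
      (fun _ _ _ h => h) (fun e he h => hs.c3 e he h.2.2 (Or.inl h.1))).mono k3 (himg _ _)
  · exact (f1 C3 (pat S1 S2 S3 1) (fun e => e.1 ∈ S1 ∧ e.2.1 ∉ S2 ∧ e.2.2 ∈ S3)
      (fun _ _ _ h => h) (fun e he h => hs.c3 e he h.2.2 (Or.inr h.2.1))).mono k3 (himg _ _)
  · exact (f2 C1 (pat S1 S2 S3 1) (fun e => e.1 ∈ S1 ∧ e.2.1 ∉ S2 ∧ e.2.2 ∈ S3)
      (fun _ _ _ h => h) (fun e he h => hs.c1 e he h.1 (Or.inl h.2.1))).mono k1 (himg _ _)
  · exact (f2 C1 (pat S1 S2 S3 2) (fun e => e.1 ∈ S1 ∧ e.2.1 ∈ S2 ∧ e.2.2 ∉ S3)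
      (fun _ _ _ h => h) (fun e he h => hs.c1 e he h.1 (Or.inr h.2.2))).mono k1 (himg _ _)
  · exact (f0 C2 (pat S1 S2 S3 2) (fun e => e.1 ∈ S1 ∧ e.2.1 ∈ S2 ∧ e.2.2 ∉ S3)
      (fun _ _ _ h => h) (fun e he h => hs.c2 e he h.2.1 (Or.inr h.2.2))).mono k2 (himg _ _)
  · exact (f2 C1 (pat S1 S2 S3 3) (fun e => e.1 ∈ S1 ∧ e.2.1 ∉ S2 ∧ e.2.2 ∉ S3)
      (fun _ _ _ h => h) (fun e he h => hs.c1 e he h.1 (Or.inl h.2.1))).mono k1 (himg _ _)
  · exact (f0 C2 (pat S1 S2 S3 4) (fun e => e.1 ∉ S1 ∧ e.2.1 ∈ S2 ∧ e.2.2 ∉ S3)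
      (fun _ _ _ h => h) (fun e he h => hs.c2 e he h.2.1 (Or.inl h.1))).mono k2 (himg _ _)
  · exact (f1 C3 (pat S1 S2 S3 5) (fun e => e.1 ∉ S1 ∧ e.2.1 ∉ S2 ∧ e.2.2 ∈ S3)
      (fun _ _ _ h => h) (fun e he h => hs.c3 e he h.2.2 (Or.inl h.1))).mono k3 (himg _ _)
  · intro j hj κ
    fin_cases j
    · exact ft (pat S1 S2 S3 0) _ κ (fun _ _ _ h => h)
    · exact ft (pat S1 S2 S3 1) _ κ (fun _ _ _ h => h)
    · exact ft (pat S1 S2 S3 2) _ κ (fun _ _ _ h => h)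
    · exact ft (pat S1 S2 S3 3) _ κ (fun _ _ _ h => h)
    · exact ft (pat S1 S2 S3 4) _ κ (fun _ _ _ h => h)
    · exact ft (pat S1 S2 S3 5) _ κ (fun _ _ _ h => h)
    · exact ft (pat S1 S2 S3 6) _ κ (fun _ _ _ h => h)
    · exact absurd rfl hj
  · refine ((f2 S1 (fun x _ _ => x ∈ S1) (fun e => e.1 ∈ S1) (fun _ _ _ h => h)
      (fun _ _ h => h)).mono c1.le ?_).congr fun x y z => part_R0 T S1 S2 S3 x y z
    refine le_trans (hun _ _ (fun e => e.1 ∈ S1 ∧ e.2.1 ∉ S2 ∧ e.2.2 ∈ S3)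
      (fun e => e.1 ∈ S1 ∧ e.2.1 ∈ S2 ∧ e.2.2 ∉ S3)
      (fun e => e.1 ∈ S1 ∧ e.2.1 ∉ S2 ∧ e.2.2 ∉ S3)
      (fun e => e.1 ∈ S1 ∧ e.2.1 ∈ S2 ∧ e.2.2 ∈ S3) (fun e he => by tauto) hs.z12) hw0
  · refine ((f0 S2 (fun _ y _ => y ∈ S2) (fun e => e.2.1 ∈ S2) (fun _ _ _ h => h)
      (fun _ _ h => h)).mono c2.le ?_).congr fun x y z => part_R1 T S1 S2 S3 x y z
    refine le_trans (hun _ _ (fun e => e.1 ∉ S1 ∧ e.2.1 ∈ S2 ∧ e.2.2 ∈ S3)
      (fun e => e.1 ∈ S1 ∧ e.2.1 ∈ S2 ∧ e.2.2 ∉ S3)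
      (fun e => e.1 ∉ S1 ∧ e.2.1 ∈ S2 ∧ e.2.2 ∉ S3)
      (fun e => e.1 ∈ S1 ∧ e.2.1 ∈ S2 ∧ e.2.2 ∈ S3) (fun e he => by tauto) hs.z12) hw1
  · refine ((f1 S3 (fun _ _ z => z ∈ S3) (fun e => e.2.2 ∈ S3) (fun _ _ _ h => h)
      (fun _ _ h => h)).mono c3.le ?_).congr fun x y z => part_R2 T S1 S2 S3 x y z
    refine le_trans (hun _ _ (fun e => e.1 ∉ S1 ∧ e.2.1 ∈ S2 ∧ e.2.2 ∈ S3)
      (fun e => e.1 ∈ S1 ∧ e.2.1 ∉ S2 ∧ e.2.2 ∈ S3)
      (fun e => e.1 ∉ S1 ∧ e.2.1 ∉ S2 ∧ e.2.2 ∈ S3)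
      (fun e => e.1 ∈ S1 ∧ e.2.1 ∈ S2 ∧ e.2.2 ∈ S3) (fun e he => by tauto) hs.z23) hw2


end Pool.Agent.TH671.SK
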