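import Mathlib
import Pool.Agent.TH671.SK.Coord
import Pool.Agent.TH671.SH.Thr

/-!
# The asymptotic rank of tensors most of whose indices are simple
-/

set_option autoImplicit false
set_option linter.unusedSectionVars false

open Finset Polynomial

namespace Pool.Agent.TH671.SK

open Pool.Agent.W329.AR Pool.Agent.TH671.SG Pool.Agent.TH671.SH

section ring

variable {K : Type} [CommRing K]

/-- **Ranks of the Kronecker powers of tensors most of whose indices are simple.** -/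
theorem sprs_rank (h k : ℕ) (hh : 1 ≤ h) : ∃ D : ℕ, 1 ≤ D ∧ ∀ τ σ m w ρ cz : ℕ, 1 ≤ τ → τ ≤ σ →
    D * τ ≤ m → D * ρ ≤ m → w * τ ^ k ≤ σ * m ^ k → ∃ c : ℕ, ∀ (ι : Type) [Fintype ι]
      [DecidableEq ι], Fintype.card ι = m → ∀ (H : Finset (ι × ι × ι))
      (S1 S2 S3 C1 C2 C3 : Finset ι), S1.card = σ → S2.card = σ → S3.card = σ → C1.card ≤ τ →
      C2.card ≤ τ → C3.card ≤ τ → Sprs H S1 S2 S3 C1 C2 C3 h w → ∀ T : ι → ι → ι → K,
      (∀ x y z, (x, y, z) ∉ H → T x y z = 0) →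
      (∀ n, Rk (kpow (smallPart T S1 S2 S3) n) (cz * ρ ^ n)) →
      ∀ n : ℕ, Rk (kpow T (n + 1)) (c * (n + 1) ^ 3 * m ^ (n + 1)) := by
  obtain ⟨D0, hD0, hmain⟩ := rk_bound2 (K := K) h (k + 2) hh
  refine ⟨6 * D0, by omega, fun τ σ m w ρ cz hτ hτσ hτm hρm hw => ?_⟩
  have h6 : 6 * τ ≤ m := le_trans (Nat.mul_le_mul_right _ (by omega)) hτm
  have hτ' : D0 * τ ≤ m := le_trans (Nat.mul_le_mul_right _ (by omega)) hτm
  have hρ' : D0 * ρ ≤ m := le_trans (Nat.mul_le_mul_right _ (by omega)) hρm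
  have hwq : (3 * m + w) * τ ^ (k + 2) ≤ σ * m ^ (k + 2) := by
    have a1 : 2 * (3 * m * τ ^ (k + 2)) ≤ σ * m ^ (k + 2) := by
      calc 2 * (3 * m * τ ^ (k + 2)) = (6 * τ) * τ ^ k * τ * m := by ring
        _ ≤ m * m ^ k * σ * m := by
            gcongr
            omega
        _ = _ := by ring
    have a2 : 2 * (w * τ ^ (k + 2)) ≤ σ * m ^ (k + 2) := by
      calc 2 * (w * τ ^ (k + 2)) = (w * τ ^ k) * ((2 * τ) * τ) := by ring
        _ ≤ (σ * m ^ k) * (m * m) := by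
            gcongr
            · omega
            · omega
        _ = _ := by ring
    have : 2 * ((3 * m + w) * τ ^ (k + 2)) = 2 * (3 * m * τ ^ (k + 2)) +
        2 * (w * τ ^ (k + 2)) := by ring
    omega
  obtain ⟨c, hc⟩ := hmain τ σ m ρ (3 * m + w) cz hτ hτ' hρ' hwq
  refine ⟨c, fun ι _ _ hι H S1 S2 S3 C1 C2 C3 e1 e2 e3 k1 k2 k3 hs T hT hzp n => ?_⟩
  set W := wt H S1 S2 S3 w with hW
  have hσm : σ ≤ m := by
    rw [← e1, ← hι]
    exact Finset.card_le_univ _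
  -- numbers of triples with a big index
  have hun : ∀ (q q1 q2 q3 q4 : ι × ι × ι → Prop) [DecidablePred q] [DecidablePred q1]
      [DecidablePred q2] [DecidablePred q3] [DecidablePred q4],
      (∀ e, q1 e → q e ∧ ¬ q2 e ∧ ¬ q3 e ∧ ¬ q4 e) → (∀ e, q2 e → q e ∧ ¬ q3 e ∧ ¬ q4 e) →
      (∀ e, q3 e → q e ∧ ¬ q4 e) → (∀ e, q4 e → q e) →
      (H.filter q1).card + (H.filter q2).card + (H.filter q3).card + (H.filter q4).card ≤
        (H.filter q).card := by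
    intro q q1 q2 q3 q4 _ _ _ _ _ a1 a2 a3 a4
    have d34 : Disjoint (H.filter q3) (H.filter q4) :=
      Finset.disjoint_filter.2 fun e _ b1 b2 => (a3 e b1).2 b2
    have d2 : Disjoint (H.filter q2) ((H.filter q3) ∪ (H.filter q4)) := by
      rw [Finset.disjoint_union_right]
      exact ⟨Finset.disjoint_filter.2 fun e _ b1 b2 => (a2 e b1).2.1 b2,
        Finset.disjoint_filter.2 fun e _ b1 b2 => (a2 e b1).2.2 b2⟩
    have d1 : Disjoint (H.filter q1) ((H.filter q2) ∪ ((H.filter q3) ∪ (H.filter q4))) := by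
      rw [Finset.disjoint_union_right, Finset.disjoint_union_right]
      exact ⟨Finset.disjoint_filter.2 fun e _ b1 b2 => (a1 e b1).2.1 b2,
        Finset.disjoint_filter.2 fun e _ b1 b2 => (a1 e b1).2.2.1 b2,
        Finset.disjoint_filter.2 fun e _ b1 b2 => (a1 e b1).2.2.2 b2⟩
    have hsub : (H.filter q1) ∪ ((H.filter q2) ∪ ((H.filter q3) ∪ (H.filter q4))) ⊆
        H.filter q := by
      intro e he
      simp only [Finset.mem_union, Finset.mem_filter] at he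
      refine Finset.mem_filter.2 ?_
      rcases he with h | h | h | h
      · exact ⟨h.1, (a1 e h.2).1⟩
      · exact ⟨h.1, (a2 e h.2).1⟩
      · exact ⟨h.1, (a3 e h.2).1⟩
      · exact ⟨h.1, a4 e h.2⟩
    have := Finset.card_le_card hsub
    rw [Finset.card_union_of_disjoint d1, Finset.card_union_of_disjoint d2,
      Finset.card_union_of_disjoint d34] at this
    omega
  have b1 : (H.filter fun e => e.1 ∉ S1).card + σ ≤ m := by
    have h5 : (H.filter fun e => e.1 ∉ S1).card ≤ (univ \ S1).card := by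
      refine Finset.card_le_card_of_injOn (fun e => e.1) ?_ ?_
      · intro e he
        exact Finset.mem_coe.2 (Finset.mem_sdiff.2 ⟨Finset.mem_univ _,
          (Finset.mem_filter.1 (Finset.mem_coe.1 he)).2⟩)
      · intro e he e' he' hee
        obtain ⟨q1, q2⟩ := Finset.mem_filter.1 (Finset.mem_coe.1 he)
        exact hs.s1 e q1 e' (Finset.mem_filter.1 (Finset.mem_coe.1 he')).1 q2 hee
    rw [Finset.card_sdiff_of_subset (Finset.subset_univ _), e1, Finset.card_univ, hι] at h5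
    omega
  have b2 : (H.filter fun e => e.2.1 ∉ S2).card + σ ≤ m := by
    have h5 : (H.filter fun e => e.2.1 ∉ S2).card ≤ (univ \ S2).card := by
      refine Finset.card_le_card_of_injOn (fun e => e.2.1) ?_ ?_
      · intro e he
        exact Finset.mem_coe.2 (Finset.mem_sdiff.2 ⟨Finset.mem_univ _,
          (Finset.mem_filter.1 (Finset.mem_coe.1 he)).2⟩)
      · intro e he e' he' hee
        obtain ⟨q1, q2⟩ := Finset.mem_filter.1 (Finset.mem_coe.1 he)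
        exact hs.s2 e q1 e' (Finset.mem_filter.1 (Finset.mem_coe.1 he')).1 q2 hee
    rw [Finset.card_sdiff_of_subset (Finset.subset_univ _), e2, Finset.card_univ, hι] at h5
    omega
  have b3 : (H.filter fun e => e.2.2 ∉ S3).card + σ ≤ m := by
    have h5 : (H.filter fun e => e.2.2 ∉ S3).card ≤ (univ \ S3).card := by
      refine Finset.card_le_card_of_injOn (fun e => e.2.2) ?_ ?_
      · intro e he
        exact Finset.mem_coe.2 (Finset.mem_sdiff.2 ⟨Finset.mem_univ _,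
          (Finset.mem_filter.1 (Finset.mem_coe.1 he)).2⟩)
      · intro e he e' he' hee
        obtain ⟨q1, q2⟩ := Finset.mem_filter.1 (Finset.mem_coe.1 he)
        exact hs.s3 e q1 e' (Finset.mem_filter.1 (Finset.mem_coe.1 he')).1 q2 hee
    rw [Finset.card_sdiff_of_subset (Finset.subset_univ _), e3, Finset.card_univ, hι] at h5
    omega
  have g1 := hun (fun e => e.1 ∉ S1) (fun e => e.1 ∉ S1 ∧ e.2.1 ∈ S2 ∧ e.2.2 ∈ S3)
    (fun e => e.1 ∉ S1 ∧ e.2.1 ∈ S2 ∧ e.2.2 ∉ S3)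
    (fun e => e.1 ∉ S1 ∧ e.2.1 ∉ S2 ∧ e.2.2 ∈ S3)
    (fun e => e.1 ∉ S1 ∧ e.2.1 ∉ S2 ∧ e.2.2 ∉ S3) (fun e => by tauto) (fun e => by tauto)
    (fun e => by tauto) (fun e => by tauto)
  have g2 := hun (fun e => e.2.1 ∉ S2) (fun e => e.1 ∈ S1 ∧ e.2.1 ∉ S2 ∧ e.2.2 ∈ S3)
    (fun e => e.1 ∉ S1 ∧ e.2.1 ∉ S2 ∧ e.2.2 ∈ S3)
    (fun e => e.1 ∈ S1 ∧ e.2.1 ∉ S2 ∧ e.2.2 ∉ S3)
    (fun e => e.1 ∉ S1 ∧ e.2.1 ∉ S2 ∧ e.2.2 ∉ S3) (fun e => by tauto) (fun e => by tauto)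
    (fun e => by tauto) (fun e => by tauto)
  have g3 := hun (fun e => e.2.2 ∉ S3) (fun e => e.1 ∈ S1 ∧ e.2.1 ∈ S2 ∧ e.2.2 ∉ S3)
    (fun e => e.1 ∈ S1 ∧ e.2.1 ∉ S2 ∧ e.2.2 ∉ S3)
    (fun e => e.1 ∉ S1 ∧ e.2.1 ∈ S2 ∧ e.2.2 ∉ S3)
    (fun e => e.1 ∉ S1 ∧ e.2.1 ∉ S2 ∧ e.2.2 ∉ S3) (fun e => by tauto) (fun e => by tauto)
    (fun e => by tauto) (fun e => by tauto)
  have hX : W 0 + W 4 + W 5 + W 6 + σ ≤ m := le_trans (Nat.add_le_add_right g1 _) b1
  have hY : W 1 + W 5 + W 3 + W 6 + σ ≤ m := le_trans (Nat.add_le_add_right g2 _) b2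
  have hZ : W 2 + W 3 + W 4 + W 6 + σ ≤ m := le_trans (Nat.add_le_add_right g3 _) b3
  have hpair : ∀ (q q1 q2 : ι × ι × ι → Prop) [DecidablePred q] [DecidablePred q1]
      [DecidablePred q2], (∀ e, q1 e → q e ∧ ¬ q2 e) → (∀ e, q2 e → q e) →
      h * (H.filter q).card ≤ (h - 1) * Fintype.card ι →
      h * ((H.filter q1).card + (H.filter q2).card) ≤ (h - 1) * m := by
    intro q q1 q2 _ _ _ a1 a2 a3
    have hd : Disjoint (H.filter q1) (H.filter q2) :=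
      Finset.disjoint_filter.2 fun e _ b1 b2 => (a1 e b1).2 b2
    have hsub : (H.filter q1) ∪ (H.filter q2) ⊆ H.filter q := by
      intro e he
      simp only [Finset.mem_union, Finset.mem_filter] at he
      refine Finset.mem_filter.2 ?_
      rcases he with h | h
      · exact ⟨h.1, (a1 e h.2).1⟩
      · exact ⟨h.1, a2 e h.2⟩
    have := Finset.card_le_card hsub
    rw [Finset.card_union_of_disjoint hd] at this
    rw [← hι]
    exact le_trans (Nat.mul_le_mul_left _ this) a3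
  have p0 : h * (W 3 + W 6) ≤ (h - 1) * m :=
    hpair (fun e => e.2.1 ∉ S2 ∧ e.2.2 ∉ S3)
      (fun e => e.1 ∈ S1 ∧ e.2.1 ∉ S2 ∧ e.2.2 ∉ S3)
      (fun e => e.1 ∉ S1 ∧ e.2.1 ∉ S2 ∧ e.2.2 ∉ S3) (fun e => by tauto) (fun e => by tauto)
      hs.d23
  have p1 : h * (W 4 + W 6) ≤ (h - 1) * m :=
    hpair (fun e => e.1 ∉ S1 ∧ e.2.2 ∉ S3)
      (fun e => e.1 ∉ S1 ∧ e.2.1 ∈ S2 ∧ e.2.2 ∉ S3)
      (fun e => e.1 ∉ S1 ∧ e.2.1 ∉ S2 ∧ e.2.2 ∉ S3) (fun e => by tauto) (fun e => by tauto)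
      hs.d13
  have p2 : h * (W 5 + W 6) ≤ (h - 1) * m :=
    hpair (fun e => e.1 ∉ S1 ∧ e.2.1 ∉ S2)
      (fun e => e.1 ∉ S1 ∧ e.2.1 ∉ S2 ∧ e.2.2 ∈ S3)
      (fun e => e.1 ∉ S1 ∧ e.2.1 ∉ S2 ∧ e.2.2 ∉ S3) (fun e => by tauto) (fun e => by tauto)
      hs.d12
  have hG : Good τ σ (fun j => prt T (pat S1 S2 S3 j)) W (3 * m + w) := by
    refine hs.good T hT e1 e2 e3 k1 k2 k3 ?_ ?_ ?_
    · change W 1 + W 2 + W 3 + w ≤ _
      omega
    · change W 0 + W 2 + W 4 + w ≤ _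
      omega
    · change W 0 + W 1 + W 5 + w ≤ _
      omega
  have hz7 : ∀ n : ℕ, Rk (kpow (prt T (pat S1 S2 S3 7)) n) (cz * ρ ^ n) := by
    intro n
    have h7 : prt T (pat S1 S2 S3 7) = smallPart T S1 S2 S3 := by
      funext x y z
      by_cases hp : x ∈ S1 ∧ y ∈ S2 ∧ z ∈ S3
      · rw [smallPart, if_pos hp, prt, if_pos (show pat S1 S2 S3 7 x y z from hp)]
      · rw [smallPart, if_neg hp, prt, if_neg (show ¬ pat S1 S2 S3 7 x y z from hp)]
    rw [h7]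
    exact hzp n
  exact hc ι T _ W _ (part_sum T S1 S2 S3) hG le_rfl hz7 hX hY hZ p0 p1 p2 n

end ring

end Pool.Agent.TH671.SK
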