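import Mathlib
import Pool.Agent.TH671.SK.Final

/-!
# Asymptotic rank and the growth of the ranks of the Kronecker powers
-/

set_option autoImplicit false
set_option linter.unusedSectionVars false

open Finset Polynomial

namespace Pool.Agent.TH671.SK

open Pool.Agent.W329.AR Pool.Agent.TH671.SG Pool.Agent.TH671.SH Pool.Agent.TH671.AS

section ring

variable {K : Type} [CommRing K]

theorem rk_kpow_add {ι : Type} {T : ι → ι → ι → K} {a b r s : ℕ}
    (h : Rk (kpow T a) r) (h' : Rk (kpow T b) s) : Rk (kpow T (a + b)) (r * s) := by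
  refine ((Rk.kmul' h h').comp
    (fun x : Fin (a + b) → ι => ((fun i => x (Fin.castAdd b i)), fun i => x (Fin.natAdd a i)))
    (fun x : Fin (a + b) → ι => ((fun i => x (Fin.castAdd b i)), fun i => x (Fin.natAdd a i)))
    (fun x : Fin (a + b) → ι => ((fun i => x (Fin.castAdd b i)),
      fun i => x (Fin.natAdd a i)))).congr fun x y z => ?_
  simp only [kpow, kmul]
  rw [Fin.prod_univ_add]

theorem rk_kpow_mul {ι : Type} {T : ι → ι → ι → K} {k r : ℕ}
    (h : Rk (kpow T k) r) (q : ℕ) : Rk (kpow T (k * q)) (r ^ q) := by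
  induction q with
  | zero =>
    have := Rk.of_fintype (κ := Unit) (T := kpow T (k * 0)) (fun _ _ => 1) (fun _ _ => 1)
      (fun _ _ => 1) (fun a b c => by simp [kpow])
    simpa using this
  | succ q ih =>
    have := rk_kpow_add ih h
    rwa [← pow_succ] at this

theorem rk_growth {ι : Type} [Fintype ι] [DecidableEq ι] (T : ι → ι → ι → K) (ρ : ℕ)
    (hρ : 1 ≤ ρ) (h : arank T < ρ) : ∃ cz : ℕ, ∀ n : ℕ, Rk (kpow T n) (cz * ρ ^ n) := by
  obtain ⟨n0, hn0⟩ := exists_lt_of_ciInf_lt h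
  set k := n0 + 1 with hk
  set r0 := sInf {r : ℕ | Rk (kpow T k) r} with hr0
  have hne : {r : ℕ | Rk (kpow T k) r}.Nonempty := ⟨_, Rk.triv _⟩
  have hr : Rk (kpow T k) r0 := Nat.sInf_mem hne
  have hle : r0 ≤ ρ ^ k := by
    have h1 : ((r0 : ℝ) ^ ((1 : ℝ) / ((n0 : ℝ) + 1))) ^ k ≤ (ρ : ℝ) ^ k :=
      pow_le_pow_left₀ (by positivity) hn0.le k
    have h2 : ((r0 : ℝ) ^ ((1 : ℝ) / ((n0 : ℝ) + 1))) ^ k = r0 := by
      rw [← Real.rpow_natCast, ← Real.rpow_mul (by positivity)]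
      have : (1 : ℝ) / ((n0 : ℝ) + 1) * (k : ℝ) = 1 := by
        rw [hk]
        push_cast
        field_simp
      rw [this, Real.rpow_one]
    rw [h2] at h1
    exact_mod_cast h1
  have hr' : Rk (kpow T k) (ρ ^ k) := hr.mono hle
  refine ⟨(Fintype.card ι ^ k) * (Fintype.card ι ^ k) + 1, fun n => ?_⟩
  have h1 := rk_kpow_mul hr' (n / k)
  have h2 : Rk (kpow T (n % k)) ((Fintype.card ι ^ k) * (Fintype.card ι ^ k) + 1) := by
    refine (Rk.triv _).mono ?_
    simp only [Fintype.card_pi, Finset.prod_const, Finset.card_univ, Fintype.card_fin]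
    have hlt : n % k < k := Nat.mod_lt _ (Nat.succ_pos _)
    rcases Nat.eq_zero_or_pos (Fintype.card ι) with h0 | h0
    · rw [h0]
      rcases Nat.eq_zero_or_pos (n % k) with h3 | h3
      · rw [h3]
        simp
      · rw [zero_pow h3.ne']
        simp
    · have : Fintype.card ι ^ (n % k) ≤ Fintype.card ι ^ k := Nat.pow_le_pow_right h0 hlt.le
      calc Fintype.card ι ^ (n % k) * Fintype.card ι ^ (n % k) ≤
          Fintype.card ι ^ k * Fintype.card ι ^ k := Nat.mul_le_mul this this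
        _ ≤ _ := Nat.le_succ _
  have h3 := rk_kpow_add h1 h2
  rw [Nat.div_add_mod] at h3
  refine h3.mono ?_
  rw [← pow_mul, mul_comm]
  refine Nat.mul_le_mul_left _ (Nat.pow_le_pow_right hρ ?_)
  exact Nat.mul_div_le n k

end ring

/-- **Main theorem.** -/
theorem arank_sprs {K : Type} [Field K] (h k : ℕ) (hh : 1 ≤ h) : ∃ D : ℕ, 1 ≤ D ∧
    ∀ t s m w : ℕ, 1 ≤ t → t ≤ s → D * t ≤ m → w * t ^ k ≤ s * m ^ k →
      ∀ (ι : Type) [Fintype ι] [DecidableEq ι], Fintype.card ι = m →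
      ∀ (H : Finset (ι × ι × ι)) (S1 S2 S3 C1 C2 C3 : Finset ι), S1.card = s → S2.card = s →
      S3.card = s → C1.card ≤ t → C2.card ≤ t → C3.card ≤ t → Sprs H S1 S2 S3 C1 C2 C3 h w →
      ∀ F : ι → ι → ι → K[X], (∀ x y z, (x, y, z) ∉ H → F x y z = 0) →
      (D : ℝ) * arank (smallPart F S1 S2 S3) ≤ m →
      ∀ T : ι → ι → ι → K, Conc T → Deg T F → arank T = m := by
  obtain ⟨D, hD, hmain⟩ := sprs_rank (K := K[X]) h k hh
  refine ⟨2 * D, by omega, fun t s m w ht hts htm hw ι _ _ hι H S1 S2 S3 C1 C2 C3 e1 e2 e3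
    c1 c2 c3 hs F hF hZ T hT hd => ?_⟩
  set a := arank (smallPart F S1 S2 S3) with ha
  have ha0 : 0 ≤ a := arank_nonneg _
  set ρ := ⌊a⌋₊ + 1 with hρ
  have hlt : a < (ρ : ℝ) := by
    rw [hρ]
    push_cast
    exact Nat.lt_floor_add_one a
  have hρm : D * ρ ≤ m := by
    have h1 : 2 * D * ⌊a⌋₊ ≤ m := by
      have : ((2 * D * ⌊a⌋₊ : ℕ) : ℝ) ≤ (m : ℝ) := by
        refine le_trans ?_ hZ
        push_cast
        exact mul_le_mul_of_nonneg_left (Nat.floor_le ha0) (by positivity)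
      exact_mod_cast this
    have h2 : 2 * D ≤ m := le_trans (Nat.le_mul_of_pos_right _ ht) htm
    have h3 : 2 * (D * ρ) = 2 * D * ⌊a⌋₊ + 2 * D := by rw [hρ]; ring
    omega
  obtain ⟨cz, hcz⟩ := rk_growth (smallPart F S1 S2 S3) ρ (by omega) hlt
  have htm' : D * t ≤ m := le_trans (Nat.mul_le_mul_right _ (by omega)) htm
  obtain ⟨c, hc⟩ := hmain t s m w ρ cz ht hts htm' hρm hw
  have := arank_deg hT hd c fun n => by
    rw [hι]
    exact hc ι hι H S1 S2 S3 C1 C2 C3 e1 e2 e3 c1 c2 c3 hs F hF hcz n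
  rw [this, hι]

/-- The same for tensors supported on `H`. -/
theorem arank_sprs' {K : Type} [Field K] (h k : ℕ) (hh : 1 ≤ h) : ∃ D : ℕ, 1 ≤ D ∧
    ∀ t s m w : ℕ, 1 ≤ t → t ≤ s → D * t ≤ m → w * t ^ k ≤ s * m ^ k →
      ∀ (ι : Type) [Fintype ι] [DecidableEq ι], Fintype.card ι = m →
      ∀ (H : Finset (ι × ι × ι)) (S1 S2 S3 C1 C2 C3 : Finset ι), S1.card = s → S2.card = s →
      S3.card = s → C1.card ≤ t → C2.card ≤ t → C3.card ≤ t → Sprs H S1 S2 S3 C1 C2 C3 h w →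
      ∀ T : ι → ι → ι → K, (∀ x y z, (x, y, z) ∉ H → T x y z = 0) →
      (D : ℝ) * arank (smallPart T S1 S2 S3) ≤ m → Conc T → arank T = m := by
  obtain ⟨D, hD, hmain⟩ := sprs_rank (K := K) h k hh
  refine ⟨2 * D, by omega, fun t s m w ht hts htm hw ι _ _ hι H S1 S2 S3 C1 C2 C3 e1 e2 e3
    c1 c2 c3 hs T hF hZ hT => ?_⟩
  set a := arank (smallPart T S1 S2 S3) with ha
  have ha0 : 0 ≤ a := arank_nonneg _
  set ρ := ⌊a⌋₊ + 1 with hρ
  have hlt : a < (ρ : ℝ) := by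
    rw [hρ]
    push_cast
    exact Nat.lt_floor_add_one a
  have hρm : D * ρ ≤ m := by
    have h1 : 2 * D * ⌊a⌋₊ ≤ m := by
      have : ((2 * D * ⌊a⌋₊ : ℕ) : ℝ) ≤ (m : ℝ) := by
        refine le_trans ?_ hZ
        push_cast
        exact mul_le_mul_of_nonneg_left (Nat.floor_le ha0) (by positivity)
      exact_mod_cast this
    have h2 : 2 * D ≤ m := le_trans (Nat.le_mul_of_pos_right _ ht) htm
    have h3 : 2 * (D * ρ) = 2 * D * ⌊a⌋₊ + 2 * D := by rw [hρ]; ring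
    omega
  obtain ⟨cz, hcz⟩ := rk_growth (smallPart T S1 S2 S3) ρ (by omega) hlt
  have htm' : D * t ≤ m := le_trans (Nat.mul_le_mul_right _ (by omega)) htm
  obtain ⟨c, hc⟩ := hmain t s m w ρ cz ht hts htm' hρm hw
  have := arank_eq hT c fun n => by
    rw [hι]
    exact hc ι hι H S1 S2 S3 C1 C2 C3 e1 e2 e3 c1 c2 c3 hs T hF hcz n
  rw [this, hι]

end Pool.Agent.TH671.SK
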