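import Mathlib
import Pool.Agent.TH671.SK.Growth
import Pool.Agent.TH671.SH.Add

/-!
# Padded tensors and direct sums: the asymptotic rank is minimal from a constant multiple of the
asymptotic rank of the small part on
-/

set_option autoImplicit false
set_option linter.unusedSectionVars false

open Finset Filter Topology

namespace Pool.Agent.TH671.SK

open Pool.Agent.W329.AR Pool.Agent.TH671.AS Pool.Agent.TH671.SH

section main

variable {K : Type} [Field K]

theorem pad_sprs {ι E : Type} [Fintype ι] [DecidableEq ι] [Fintype E] [DecidableEq E]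
    (Z : ι → ι → ι → K) (f g h : E → ι) {w : ℕ} (hw : Pairs Z w) :
    Sprs (supp (pad Z f g h)) ((univ : Finset ι).image Sum.inl) ((univ : Finset ι).image Sum.inl)
      ((univ : Finset ι).image Sum.inl) ((univ : Finset E).image fun e => Sum.inl (f e))
      ((univ : Finset E).image fun e => Sum.inl (g e))
      ((univ : Finset E).image fun e => Sum.inl (h e)) 2 w := by
  classical
  have hsup : ∀ e ∈ supp (pad Z f g h), padS (fun x y z => Z x y z ≠ 0) f g h e.1 e.2.1 e.2.2 :=
    fun e he => pad_supp Z f g h _ _ _ (Finset.mem_filter.1 he).2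
  obtain ⟨a1, a2, a3, a4, a5, a6, a7, a8⟩ := pad_spr Z f g h hw
  refine ⟨a1, a2, a3, a4, a5, a6, ?_, ?_, ?_, a7, a8⟩
  · rintro ⟨a, b, c⟩ he hin hor
    dsimp only at hin hor ⊢
    rcases padS_three _ _ _ _ _ _ _ (hsup _ he) with ⟨x, y, z, _, h1, h2, h3⟩ | ⟨e, h1, h2, h3⟩ |
      ⟨e, h1, h2, h3⟩ | ⟨e, h1, h2, h3⟩ <;> dsimp only at h1 h2 h3 <;> subst h1 h2 h3
    · rcases hor with hor | hor <;> exact absurd (inl_mem _) hor
    · exact Finset.mem_image.2 ⟨e, Finset.mem_univ _, rfl⟩
    · exact absurd hin (inr_notin _)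
    · exact absurd hin (inr_notin _)
  · rintro ⟨a, b, c⟩ he hin hor
    dsimp only at hin hor ⊢
    rcases padS_three _ _ _ _ _ _ _ (hsup _ he) with ⟨x, y, z, _, h1, h2, h3⟩ | ⟨e, h1, h2, h3⟩ |
      ⟨e, h1, h2, h3⟩ | ⟨e, h1, h2, h3⟩ <;> dsimp only at h1 h2 h3 <;> subst h1 h2 h3
    · rcases hor with hor | hor <;> exact absurd (inl_mem _) hor
    · exact absurd hin (inr_notin _)
    · exact Finset.mem_image.2 ⟨e, Finset.mem_univ _, rfl⟩
    · exact absurd hin (inr_notin _)
  · rintro ⟨a, b, c⟩ he hin hor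
    dsimp only at hin hor ⊢
    rcases padS_three _ _ _ _ _ _ _ (hsup _ he) with ⟨x, y, z, _, h1, h2, h3⟩ | ⟨e, h1, h2, h3⟩ |
      ⟨e, h1, h2, h3⟩ | ⟨e, h1, h2, h3⟩ <;> dsimp only at h1 h2 h3 <;> subst h1 h2 h3
    · rcases hor with hor | hor <;> exact absurd (inl_mem _) hor
    · exact absurd hin (inr_notin _)
    · exact absurd hin (inr_notin _)
    · exact Finset.mem_image.2 ⟨e, Finset.mem_univ _, rfl⟩

theorem small_rst {ι E : Type} [Fintype ι] [DecidableEq ι] [Fintype E] [DecidableEq E]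
    (Z : ι → ι → ι → K) (f g h : E → ι) :
    Rst (smallPart (pad Z f g h) ((univ : Finset ι).image Sum.inl)
      ((univ : Finset ι).image Sum.inl) ((univ : Finset ι).image Sum.inl)) Z := by
  refine ⟨fun a i => if a = Sum.inl i then 1 else 0, fun a i => if a = Sum.inl i then 1 else 0,
    fun a i => if a = Sum.inl i then 1 else 0, fun a b c => ?_⟩
  rcases a with a | a
  · rcases b with b | b
    · rcases c with c | c
      · rw [smallPart, if_pos ⟨inl_mem a, inl_mem b, inl_mem c⟩]
        simp [pad, ite_mul, mul_ite, Finset.sum_ite_eq]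
      · rw [smallPart, if_neg (fun h => inr_notin _ h.2.2)]
        simp
    · rw [smallPart, if_neg (fun h => inr_notin _ h.2.1)]
      simp
  · rw [smallPart, if_neg (fun h => inr_notin _ h.1)]
    simp

/-- **The asymptotic rank of padded tensors.** -/
theorem arank_pad2 (k : ℕ) : ∃ D : ℕ, 1 ≤ D ∧ ∀ t n c w : ℕ, 1 ≤ t → t ≤ n → D * t ≤ c →
    w * t ^ k ≤ n * c ^ k →
    ∀ (ι E : Type) [Fintype ι] [DecidableEq ι] [Fintype E] [DecidableEq E],
      Fintype.card ι = n → Fintype.card E = c → ∀ (Z : ι → ι → ι → K) (f g h : E → ι),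
      (univ.image f).card ≤ t → (univ.image g).card ≤ t → (univ.image h).card ≤ t →
      Pairs Z w → (D : ℝ) * arank Z ≤ c → Conc (pad Z f g h) →
      arank (pad Z f g h) = (n : ℝ) + 2 * c := by
  classical
  obtain ⟨D, hD, hmain⟩ := arank_sprs' (K := K) 2 k (by norm_num)
  refine ⟨D, hD, fun t n c w ht htn hc hw ι E _ _ _ _ hι hE Z f g h hf hg hh hZ hr hP => ?_⟩
  have hcard : Fintype.card (ι ⊕ (E ⊕ E)) = n + 2 * c := by
    simp only [Fintype.card_sum, hι, hE]
    ring
  have hS : ((univ : Finset ι).image (Sum.inl : ι → ι ⊕ (E ⊕ E))).card = n := by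
    rw [Finset.card_image_of_injective _ Sum.inl_injective, Finset.card_univ, hι]
  have hI : ∀ f : E → ι, (univ.image f).card ≤ t →
      ((univ : Finset E).image fun e => (Sum.inl (f e) : ι ⊕ (E ⊕ E))).card ≤ t := by
    intro f hf
    have : ((univ : Finset E).image fun e => (Sum.inl (f e) : ι ⊕ (E ⊕ E))) =
        (univ.image f).image Sum.inl := by
      rw [Finset.image_image]
      rfl
    rw [this, Finset.card_image_of_injective _ Sum.inl_injective]
    exact hf
  have h1 := hmain t n (n + 2 * c) w ht htn (by omega)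
    (hw.trans (Nat.mul_le_mul_left _ (Nat.pow_le_pow_left (by omega) _))) (ι ⊕ (E ⊕ E)) hcard
    (supp (pad Z f g h)) _ _ _ _ _ _ hS hS hS (hI f hf) (hI g hg) (hI h hh)
    (pad_sprs Z f g h hZ) (pad Z f g h) (fun x y z hx => by
      by_contra hne
      exact hx (Finset.mem_filter.2 ⟨Finset.mem_univ _, hne⟩)) (by
      have h2 := rst_arank (small_rst Z f g h)
      calc (D : ℝ) * arank (smallPart (pad Z f g h) _ _ _) ≤ D * arank Z := by gcongr
        _ ≤ c := hr
        _ ≤ ((n + 2 * c : ℕ) : ℝ) := by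
            push_cast
            have : (0 : ℝ) ≤ n := by positivity
            have : (0 : ℝ) ≤ c := by positivity
            linarith) hP
  rw [h1]
  push_cast
  ring

theorem conc_le' {ι : Type} [Fintype ι] [DecidableEq ι] {T : ι → ι → ι → K} (hT : Conc T) :
    (Fintype.card ι : ℝ) ≤ arank T := by
  refine le_ciInf fun n => ?_
  have h1 : Fintype.card ι ^ (n + 1) ≤ sInf {r : ℕ | Rk (kpow T (n + 1)) r} :=
    le_csInf ⟨_, Rk.triv _⟩ fun r hr => pow_card_le hT hr
  have hn : (0 : ℝ) < (n : ℝ) + 1 := by positivity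
  calc (Fintype.card ι : ℝ) = ((Fintype.card ι : ℝ) ^ (n + 1)) ^ ((1 : ℝ) / ((n : ℝ) + 1)) := by
        rw [← Real.rpow_natCast, ← Real.rpow_mul (by positivity)]
        have : ((n + 1 : ℕ) : ℝ) * (1 / ((n : ℝ) + 1)) = 1 := by
          push_cast
          field_simp
        rw [this, Real.rpow_one]
    _ ≤ _ := by
        refine Real.rpow_le_rpow (by positivity) ?_ (by positivity)
        exact_mod_cast h1

theorem rst_dsum_left {ι κ : Type} [Fintype ι] [Fintype κ] [DecidableEq ι] [DecidableEq κ]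
    (V : ι → ι → ι → K) (W : κ → κ → κ → K) : Rst V (dsum V W) :=
  Rst.comp (T' := dsum V W) Sum.inl Sum.inl Sum.inl

theorem rst_dsum_zero {ι κ : Type} [Fintype ι] [Fintype κ] [DecidableEq ι] [DecidableEq κ]
    (V : ι → ι → ι → K) : Rst (dsum V (fun _ _ _ : κ => (0 : K))) V := by
  refine ⟨fun a i => if a = Sum.inl i then 1 else 0, fun a i => if a = Sum.inl i then 1 else 0,
    fun a i => if a = Sum.inl i then 1 else 0, fun a b c => ?_⟩
  rcases a with a | a <;> rcases b with b | b <;> rcases c with c | c <;>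
    simp [dsum, ite_mul, mul_ite, Finset.sum_ite_eq]

/-- **Direct sums with the tensors `wten K c`.** -/
theorem arank_dsum_wten2 : ∃ D : ℕ, 1 ≤ D ∧ ∀ v c : ℕ, 1 ≤ v → ∀ V : Fin v → Fin v → Fin v → K,
    Conc V → (D : ℝ) * arank V ≤ c →
      Conc (dsum V (wten K c)) ∧ arank (dsum V (wten K c)) = (v : ℝ) + (2 * c + 1) := by
  obtain ⟨D, hD, hmain⟩ := arank_pad2 (K := K) 1
  refine ⟨D, hD, fun v c hv V hV hVc => ?_⟩
  have hvV : (v : ℝ) ≤ arank V := by simpa using conc_le' hV
  have hDv : D * v ≤ c := by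
    have : ((D * v : ℕ) : ℝ) ≤ c := by
      refine le_trans ?_ hVc
      push_cast
      gcongr
    exact_mod_cast this
  have hDc : D * 1 ≤ c := le_trans (Nat.mul_le_mul_left _ hv) hDv
  have hvc : v ≤ c := le_trans (Nat.le_mul_of_pos_left _ (by omega)) hDv
  have hc : 1 ≤ c := by omega
  have hCo := Conc.dsum hV (conc_wten K c hc)
  refine ⟨hCo, ?_⟩
  have he := dsum_wten_eq V c
  set Z := dsum V (fun _ _ _ : Fin 1 => (0 : K)) with hZ
  set P := pad Z (fun _ : Fin c => Sum.inr 0) (fun _ => Sum.inr 0) (fun _ => Sum.inr 0) with hP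
  have hPc : Conc P := by
    have h1 := Conc.equiv hCo (Equiv.sumAssoc (Fin v) (Fin 1) (Fin c ⊕ Fin c))
    rw [← he] at h1
    simpa using h1
  have hp : Pairs Z (v ^ 2) := by
    classical
    constructor
    · refine le_trans (Finset.card_le_card ?_) (Finset.card_image_le.trans ?_ :
        ((univ : Finset (Fin v × Fin v)).image fun q => ((Sum.inl q.1 : Fin v ⊕ Fin 1),
          (Sum.inl q.2 : Fin v ⊕ Fin 1))).card ≤ v ^ 2)
      · rintro ⟨x, y⟩ hq
        obtain ⟨z, hz⟩ := (Finset.mem_filter.1 hq).2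
        rcases x with x | x <;> rcases y with y | y <;> rcases z with z | z <;>
          simp [hZ, dsum] at hz
        exact Finset.mem_image.2 ⟨(x, y), Finset.mem_univ _, rfl⟩
      · simp [sq]
    · refine le_trans (Finset.card_le_card ?_) (Finset.card_image_le.trans ?_ :
        ((univ : Finset (Fin v × Fin v)).image fun q => ((Sum.inl q.1 : Fin v ⊕ Fin 1),
          (Sum.inl q.2 : Fin v ⊕ Fin 1))).card ≤ v ^ 2)
      · rintro ⟨y, z⟩ hq
        obtain ⟨x, hx⟩ := (Finset.mem_filter.1 hq).2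
        rcases x with x | x <;> rcases y with y | y <;> rcases z with z | z <;>
          simp [hZ, dsum] at hx
        exact Finset.mem_image.2 ⟨(y, z), Finset.mem_univ _, rfl⟩
      · simp [sq]
  have hone : ((univ : Finset (Fin c)).image fun _ => (Sum.inr 0 : Fin v ⊕ Fin 1)).card ≤ 1 := by
    refine (Finset.card_le_card (t := {Sum.inr 0}) ?_).trans (by simp)
    intro x hx
    obtain ⟨_, _, rfl⟩ := Finset.mem_image.1 hx
    simp
  have h1 := hmain 1 (v + 1) c (v ^ 2) le_rfl (by omega) hDc (by nlinarith)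
    (Fin v ⊕ Fin 1) (Fin c) (by simp) (by simp) Z _ _ _ hone hone hone hp (by
      have := rst_arank (rst_dsum_zero (κ := Fin 1) V)
      refine le_trans ?_ hVc
      gcongr) hPc
  have h2 := arank_equiv (Equiv.sumAssoc (Fin v) (Fin 1) (Fin c ⊕ Fin c)).symm P
  rw [he] at h2
  rw [h2, h1]
  push_cast
  ring

/-- The converse. -/
theorem arank_le_of_dsum {ι κ : Type} [Fintype ι] [Fintype κ] [DecidableEq ι] [DecidableEq κ]
    (V : ι → ι → ι → K) (W : κ → κ → κ → K) : arank V ≤ arank (dsum V W) :=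
  rst_arank (rst_dsum_left V W)

end main

end Pool.Agent.TH671.SK
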